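import Pool.Statements.S00082
import Pool.Agent.K.MP_260cc8_ag.C1

set_option autoImplicit false
open Pool Pool.MP_260cc8_ag

namespace Pool.Agent.S00082

/-- The negation of the preceding statement: For every field k, every n ≥ 1 and every proper ideal I of k[X_1..X_n], the least number of generators of I equals the least number of generators of the R-module I/I². -/
theorem result :
    ¬ (∀ (k : Type) [Field k] (n : ℕ), 1 ≤ n →
      ∀ I : Ideal (MvPolynomial (Fin n) k), I ≠ ⊤ →
        sInf {m : ℕ | ∃ f : Fin m → MvPolynomial (Fin n) k,
            Ideal.span (Set.range f) = I} =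
        sInf {m : ℕ | ∃ g : Fin m → I.Cotangent,
            Submodule.span (MvPolynomial (Fin n) k) (Set.range g) = ⊤}) :=
  Pool.Agent.P.MP_260cc8_ag.main

end Pool.Agent.S00082
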