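import Pool.Statements.S00569
import Pool.Agent.P.MP_fcbc4b_ag.Final

set_option autoImplicit false
open Pool Pool.MP_fcbc4b_ag

namespace Pool.Agent.S00569

/-- In any Noetherian regular ring, for any radical ideal I whose minimal primes have maximal height h, the symbolic power I^(hn−h+1) is contained in I^n for all sufficiently large n. -/
theorem result :
    ∀ (R : Type) [CommRing R] [IsNoetherianRing R],
      (∀ (P : Ideal R) [P.IsPrime], ∃ s : Finset (Localization.AtPrime P),
          Ideal.span (s : Set (Localization.AtPrime P)) =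
            IsLocalRing.maximalIdeal (Localization.AtPrime P) ∧
          (((s.card : ℕ∞)) : WithBot ℕ∞) = ringKrullDim (Localization.AtPrime P)) →
      ∀ (I : Ideal R), I.IsRadical → ∀ h : ℕ,
        (∀ P ∈ I.minimalPrimes, P.height ≤ (h : ℕ∞)) →
        (∃ P ∈ I.minimalPrimes, P.height = (h : ℕ∞)) →
        ∃ N : ℕ, ∀ n : ℕ, N ≤ n → ∀ r : R,
          (∀ P ∈ I.minimalPrimes, ∃ t : R, t ∉ P ∧ t * r ∈ I ^ (h * n - h + 1)) →
          r ∈ I ^ n := by
  intro R _ _ hR I hI h hh _
  have : IsRegularRing R := by
    refine isRegularRing_iff.mpr fun P _ => ?_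
    obtain ⟨s, hs, hcard⟩ := hR P
    refine IsRegularLocalRing.of_spanFinrank_maximalIdeal_le _ ?_
    rw [← hcard, ← hs]
    have := Submodule.spanFinrank_span_le_ncard_of_finite (R := Localization.AtPrime P)
      s.finite_toSet
    rw [Set.ncard_coe_finset] at this
    exact_mod_cast this
  obtain ⟨N, hN⟩ := Pool.Agent.P.MP_fcbc4b_ag.gen_stable hI h hh
  exact ⟨N, fun n hn r hr => hN n hn hr⟩

end Pool.Agent.S00569
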