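import Pool.Statements.S00983
import Pool.Agent.K.MP_267653_al.C0

set_option autoImplicit false
open Pool Pool.MP_267653_al

namespace Pool.Agent.S00983

/-- For every n ≥ 2 there is a simple left-orderable finitely presented group G for which ℤ has a finite-type free ℤG-resolution through degree n but not through degree n+1, i.e. G is of type F_n but not F_{n+1}. -/
theorem result :
    ∀ n : ℕ, 2 ≤ n → ∃ (G : Type) (_ : Group G),
      IsSimpleGroup G ∧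
      (∃ lt : G → G → Prop, (∀ a, ¬ lt a a) ∧ (∀ a b c, lt a b → lt b c → lt a c) ∧
        (∀ a b, lt a b ∨ a = b ∨ lt b a) ∧ (∀ a b c, lt b c → lt (a * b) (a * c))) ∧
      (∃ (k : ℕ) (f : FreeGroup (Fin k) →* G) (S : Finset (FreeGroup (Fin k))),
        Function.Surjective f ∧ f.ker = Subgroup.normalClosure (S : Set (FreeGroup (Fin k)))) ∧
      (∃ (r : ℕ → ℕ) (d : ∀ i : ℕ, Matrix (Fin (r (i + 1))) (Fin (r i)) (MonoidAlgebra ℤ G)),
        r 0 = 1 ∧
        (∀ v : Fin (r 0) → MonoidAlgebra ℤ G,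
          ((∀ j, v j ∈ Submodule.span (MonoidAlgebra ℤ G)
              (Set.range (fun g : G => MonoidAlgebra.of ℤ G g - 1))) ↔
            ∃ w : Fin (r 1) → MonoidAlgebra ℤ G, Matrix.vecMul w (d 0) = v)) ∧
        (∀ i : ℕ, i + 1 < n → ∀ v : Fin (r (i + 1)) → MonoidAlgebra ℤ G,
          (Matrix.vecMul v (d i) = 0 ↔
            ∃ w : Fin (r (i + 1 + 1)) → MonoidAlgebra ℤ G, Matrix.vecMul w (d (i + 1)) = v))) ∧
      ¬ (∃ (r : ℕ → ℕ) (d : ∀ i : ℕ, Matrix (Fin (r (i + 1))) (Fin (r i)) (MonoidAlgebra ℤ G)),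
        r 0 = 1 ∧
        (∀ v : Fin (r 0) → MonoidAlgebra ℤ G,
          ((∀ j, v j ∈ Submodule.span (MonoidAlgebra ℤ G)
              (Set.range (fun g : G => MonoidAlgebra.of ℤ G g - 1))) ↔
            ∃ w : Fin (r 1) → MonoidAlgebra ℤ G, Matrix.vecMul w (d 0) = v)) ∧
        (∀ i : ℕ, i + 1 < n + 1 → ∀ v : Fin (r (i + 1)) → MonoidAlgebra ℤ G,
          (Matrix.vecMul v (d i) = 0 ↔
            ∃ w : Fin (r (i + 1 + 1)) → MonoidAlgebra ℤ G, Matrix.vecMul w (d (i + 1)) = v))) := by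
  intro n hn
  obtain ⟨m, rfl⟩ : ∃ m, n = m + 1 := ⟨n - 1, by omega⟩
  obtain ⟨G, _, φ, hφ, h1, h2, h3⟩ := Pool.Agent.P.MP_267653_al.main (m := m) (by omega)
  refine ⟨G, inferInstance, h1, Pool.Agent.P.MP_267653_al.lo_of_hom φ hφ, ?_,
    (Pool.Agent.Lib.Brown.fpg_iff_matrices m).1 h2.2,
    fun h => h3 ((Pool.Agent.Lib.Brown.fpg_iff_matrices (m+1)).2 h)⟩
  obtain ⟨k, f, hf, S, hS, e⟩ := h2.1.out
  exact ⟨k, f, hS.toFinset, hf, by simpa using e.symm⟩

end Pool.Agent.S00983
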