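-- Proof of frozen statement S01054: the cup square of a bounded 2-class of a free group has positive seminorm.
import Pool.Statements.S01054
import Pool.Agent.K.MP_2ca0d6_al.C1

set_option autoImplicit false
open Pool Pool.MP_2ca0d6_al

namespace Pool.Agent.S01054

/-- The negation of the preceding statement: For every free group F and bounded real 2-cocycles f, h on F, the cup product cocycle f(a,b)h(c,d) is within any ε>0 in sup norm of a coboundary of a bounded 3-cochain, i.e. its class in H^4_b(F) has Gromov seminorm zero. -/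
theorem result :
    ¬ (∀ (α : Type) (f h : FreeGroup α → FreeGroup α → ℝ),
      (∃ C : ℝ, ∀ x y, |f x y| ≤ C) →
      (∀ x y z, f y z - f (x * y) z + f x (y * z) - f x y = 0) →
      (∃ C : ℝ, ∀ x y, |h x y| ≤ C) →
      (∀ x y z, h y z - h (x * y) z + h x (y * z) - h x y = 0) →
      ∀ ε : ℝ, 0 < ε →
        ∃ β : FreeGroup α → FreeGroup α → FreeGroup α → ℝ,
          (∃ C : ℝ, ∀ x y z, |β x y z| ≤ C) ∧
          ∀ x y z w,
            |f x y * h z w -
              (β y z w - β (x * y) z w + β x (y * z) w - β x y (z * w) + β x y z)| ≤ ε) := by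
  intro H
  obtain ⟨β, ⟨K, hK⟩, hβ⟩ := H Pool.Agent.P.MP_2ca0d6_al.Cup.Let
    Pool.Agent.P.MP_2ca0d6_al.Cup.f Pool.Agent.P.MP_2ca0d6_al.Cup.f
    ⟨3, Pool.Agent.P.MP_2ca0d6_al.Cup.f_bdd⟩ Pool.Agent.P.MP_2ca0d6_al.Cup.f_cocycle
    ⟨3, Pool.Agent.P.MP_2ca0d6_al.Cup.f_bdd⟩ Pool.Agent.P.MP_2ca0d6_al.Cup.f_cocycle
    (1 / 24) (by norm_num)
  refine Pool.Agent.P.MP_2ca0d6_al.Cup.no_primitive
    (fun w => β (Pool.Agent.P.MP_2ca0d6_al.Cup.emb w.1) (Pool.Agent.P.MP_2ca0d6_al.Cup.emb w.2.1)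
      (Pool.Agent.P.MP_2ca0d6_al.Cup.emb w.2.2)) K (fun w => hK _ _ _) ?_
  intro x y z w
  have := hβ (Pool.Agent.P.MP_2ca0d6_al.Cup.emb x) (Pool.Agent.P.MP_2ca0d6_al.Cup.emb y)
    (Pool.Agent.P.MP_2ca0d6_al.Cup.emb z) (Pool.Agent.P.MP_2ca0d6_al.Cup.emb w)
  simpa only [Pool.Agent.P.MP_2ca0d6_al.Cup.f_emb, Pool.Agent.P.MP_2ca0d6_al.Cup.emb_append]
    using this

end Pool.Agent.S01054
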