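import Pool.Statements.S01932
import Pool.Agent.P.MP_756531_al.Tree

set_option autoImplicit false
open Pool Pool.MP_756531_al

namespace Pool.Agent.S01932

/-- The negation of the preceding statement: Every finite lattice embeds into the lattice of equivalence relations on some finite set so that each join φ(x∨y) equals the relational product φ(x)∘φ(y)∘φ(x)∘φ(y). -/
theorem result :
    ¬ (∀ (L : Type) [Lattice L] [Finite L],
      ∃ (A : Type) (_ : Finite A) (φ : LatticeHom L (Setoid A)),
        Function.Injective φ ∧
        ∀ (x y : L) (a b : A),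
          (φ (x ⊔ y)).r a b ↔
            ∃ c d e : A, (φ x).r a c ∧ (φ y).r c d ∧ (φ x).r d e ∧ (φ y).r e b) := by
  intro h
  obtain ⟨A, hA, φ, hinj, h3⟩ := h Pool.Agent.P.MP_756531_al.TL
  exact Pool.Agent.P.MP_756531_al.no_rep A φ hinj h3

end Pool.Agent.S01932
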