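import Pool.Statements.S02025
import Pool.Agent.P.MP_7ab5f9_al.Main

set_option autoImplicit false
open Pool Pool.MP_7ab5f9_al

namespace Pool.Agent.S02025

/-- For every finite group G, every nonempty formation of finite groups contained in the formation generated by G is itself generated by a single finite group K, i.e. on finite groups it equals the smallest formation containing K. -/
theorem result :
    ∀ (G : Type) [Group G] [Finite G] (F : ∀ (X : Type), [Group X] → Prop),
      (∀ (X Y : Type) [Group X] [Group Y] [Finite X], F X →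
          ∀ f : X →* Y, Function.Surjective f → F Y) →
      (∀ (X : Type) [Group X] [Finite X] (N₁ N₂ : Subgroup X) [N₁.Normal] [N₂.Normal],
          F (X ⧸ N₁) → F (X ⧸ N₂) → F (X ⧸ (N₁ ⊓ N₂))) →
      (∃ (X : Type) (inst : Group X), Finite X ∧ @F X inst) →
      (∀ (H : Type) [Group H] [Finite H], F H →
        ∀ (E : ∀ (X : Type), [Group X] → Prop),
          (∀ (X Y : Type) [Group X] [Group Y] [Finite X], E X →
              ∀ f : X →* Y, Function.Surjective f → E Y) →
          (∀ (X : Type) [Group X] [Finite X] (N₁ N₂ : Subgroup X) [N₁.Normal] [N₂.Normal],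
              E (X ⧸ N₁) → E (X ⧸ N₂) → E (X ⧸ (N₁ ⊓ N₂))) →
          E G → E H) →
      ∃ (K : Type) (instK : Group K), Finite K ∧
        ∀ (H : Type) [Group H] [Finite H],
          (F H ↔
            ∀ (E : ∀ (X : Type), [Group X] → Prop),
              (∀ (X Y : Type) [Group X] [Group Y] [Finite X], E X →
                  ∀ f : X →* Y, Function.Surjective f → E Y) →
              (∀ (X : Type) [Group X] [Finite X] (N₁ N₂ : Subgroup X) [N₁.Normal] [N₂.Normal],
                  E (X ⧸ N₁) → E (X ⧸ N₂) → E (X ⧸ (N₁ ⊓ N₂))) →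
              @E K instK → E H) := by
  intro G _ _ F h1 h2 hne hsub
  obtain ⟨K, instK, hK, h⟩ := Pool.Agent.P.MP_7ab5f9_al.main G F ⟨h1, h2⟩ hne
    (fun H _ _ hH E hE hG => hsub H hH E hE.quot hE.inf hG)
  refine ⟨K, instK, hK, fun H _ _ => (h H).trans ⟨fun hH E e1 e2 hE => hH E ⟨e1, e2⟩ hE,
    fun hH E hE hK' => hH E hE.quot hE.inf hK'⟩⟩

end Pool.Agent.S02025
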