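import Pool.Statements.S02631
import Pool.Agent.P.MP_aa4716_al.Limit

set_option autoImplicit false
open Pool Pool.MP_aa4716_al

namespace Pool.Agent.S02631

/-- There is an infinite torsion group with a finite generating set whose word metric has finite Assouad–Nagata dimension: for some n and C, at every scale r the group is covered by n+1 families of sets, each set of diameter at most C·r, with distinct sets in a family more than r apart. -/
theorem result :
    ∃ (G : Type) (_ : Group G), Infinite G ∧ (∀ g : G, IsOfFinOrder g) ∧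
      ∃ S : Finset G, Subgroup.closure (S : Set G) = ⊤ ∧
        ∃ n : ℕ, ∃ C : ℝ, 0 < C ∧ ∀ r : ℝ, 0 < r →
          ∃ U : Fin (n + 1) → Set (Set G),
            (∀ x : G, ∃ i : Fin (n + 1), ∃ A ∈ U i, x ∈ A) ∧
            (∀ i : Fin (n + 1), ∀ A ∈ U i, ∀ x ∈ A, ∀ y ∈ A,
              (((SimpleGraph.fromRel (fun x y : G => x⁻¹ * y ∈ (S : Set G))).dist x y : ℕ) : ℝ)
                ≤ C * r) ∧
            (∀ i : Fin (n + 1), ∀ A ∈ U i, ∀ B ∈ U i, A ≠ B → ∀ x ∈ A, ∀ y ∈ B,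
              r < (((SimpleGraph.fromRel (fun x y : G => x⁻¹ * y ∈ (S : Set G))).dist x y : ℕ) : ℝ)) := by
  obtain ⟨T⟩ := TorAN.exists_tower
  obtain ⟨S, h1, h2⟩ := T.M.exists_gen
  refine ⟨_, inferInstance, T.infinite, T.torsion, S, h1, 3, (TorAN.KK 80 4 : ℕ) + 1,
    by positivity, fun r hr => ?_⟩
  obtain ⟨U, u1, u2, u3⟩ := (T.col_lim ⌊r⌋₊).cover T.M.pm
  refine ⟨U, u1, fun i A hA x hx y hy => ?_, fun i A hA B hB hne x hx y hy => ?_⟩
  · rw [h2]
    have k1 : ((T.M.d x y : ℕ) : ℝ) ≤ (TorAN.KK 80 4 : ℕ) * (⌊r⌋₊ : ℝ) := by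
      exact_mod_cast u2 i A hA x hx y hy
    have k2 : (⌊r⌋₊ : ℝ) ≤ r := Nat.floor_le hr.le
    have k3 : (0 : ℝ) ≤ (TorAN.KK 80 4 : ℕ) := Nat.cast_nonneg _
    nlinarith
  · rw [h2]
    exact (Nat.floor_lt hr.le).mp (u3 i A hA B hB hne x hx y hy)

end Pool.Agent.S02631
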