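import Pool.Statements.S02653
import Pool.Agent.P.MP_ab6a8b_al.Decide

set_option autoImplicit false
open Pointwise
open Pool Pool.MP_ab6a8b_al

namespace Pool.Agent.S02653

/-- It is decidable, given finitely many nonempty words naming elements of the free inverse semigroup on countably many generators (Munn tree model), whether the inverse subsemigroup they generate is isomorphic to some free inverse semigroup. -/
theorem result :
    ComputablePred (fun gens : List (List (ℕ × Bool)) =>
      (∀ w ∈ gens, w ≠ []) ∧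
      ∃ (Z : Type) (φ : Set (FreeGroup Z) × FreeGroup Z → Set (FreeGroup ℕ) × FreeGroup ℕ),
        Set.InjOn φ
          {p | ∃ w : List (Z × Bool), w ≠ [] ∧
            p = (Set.range (fun i : ℕ => FreeGroup.mk (w.take i)), FreeGroup.mk w)} ∧
        φ '' {p | ∃ w : List (Z × Bool), w ≠ [] ∧
            p = (Set.range (fun i : ℕ => FreeGroup.mk (w.take i)), FreeGroup.mk w)} =
          {q | ∀ T : Set (Set (FreeGroup ℕ) × FreeGroup ℕ),
            (∀ w ∈ gens, (Set.range (fun i : ℕ => FreeGroup.mk (w.take i)), FreeGroup.mk w) ∈ T) →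
            (∀ x ∈ T, ∀ y ∈ T, (x.1 ∪ x.2 • y.1, x.2 * y.2) ∈ T) →
            (∀ x ∈ T, (x.2⁻¹ • x.1, x.2⁻¹) ∈ T) → q ∈ T} ∧
        ∀ x ∈ {p : Set (FreeGroup Z) × FreeGroup Z | ∃ w : List (Z × Bool), w ≠ [] ∧
            p = (Set.range (fun i : ℕ => FreeGroup.mk (w.take i)), FreeGroup.mk w)},
        ∀ y ∈ {p : Set (FreeGroup Z) × FreeGroup Z | ∃ w : List (Z × Bool), w ≠ [] ∧
            p = (Set.range (fun i : ℕ => FreeGroup.mk (w.take i)), FreeGroup.mk w)},
          φ (x.1 ∪ x.2 • y.1, x.2 * y.2) =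
            ((φ x).1 ∪ (φ x).2 • (φ y).1, (φ x).2 * (φ y).2)) := by
  exact Pool.Agent.P.MP_ab6a8b_al.main

end Pool.Agent.S02653
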