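import Pool.Statements.S03350
import Pool.Agent.P.MP_e2f787_al.Final

set_option autoImplicit false
open Pool Pool.MP_e2f787_al

namespace Pool.Agent.S03350

/-- The negation of the preceding statement: For every finitely generated group G with a normal abelian subgroup A such that G/A is polycyclic-by-finite, there is a finitely generated metabelian group M with G embedding into the automorphism group of M. -/
theorem result :
    ¬ (∀ (G : Type) [Group G] [Group.FG G] (A : Subgroup G) [A.Normal],
      (∀ x ∈ A, ∀ y ∈ A, x * y = y * x) →
      (∀ H : Subgroup (G ⧸ A), H.FG) →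
      (∃ K : Subgroup (G ⧸ A), K.index ≠ 0 ∧ IsSolvable K) →
      ∃ (M : Type) (_ : Group M), Group.FG M ∧ derivedSeries M 2 = ⊥ ∧
        ∃ f : G →* MulAut M, Function.Injective f) := by
  exact Pool.Agent.P.MP_e2f787_al.main

end Pool.Agent.S03350
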