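import Pool.Statements.S03366
import Pool.Agent.P.MP_e4ebbc_al.Main

set_option autoImplicit false
open Pool Pool.MP_e4ebbc_al

namespace Pool.Agent.S03366

/-- The negation of the preceding statement: For every odd prime p and every finite p-group G, if every conjugacy class of G has at most p^b elements, then the nilpotency class of G is at most b+1. -/
theorem result :
    ¬ (∀ p : ℕ, p.Prime → p ≠ 2 →
      ∀ (G : Type) [Group G] [Finite G] [Group.IsNilpotent G],
        IsPGroup p G →
        ∀ b : ℕ, (∀ g : G, Nat.card {h : G | IsConj g h} ≤ p ^ b) →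
          Group.nilpotencyClass G ≤ b + 1) := by
  intro h
  obtain ⟨G, _, _, _, hP, b, hb, hc⟩ := Pool.Agent.P.MP_e4ebbc_al.exists_group 3 Nat.prime_three 2
  have := h 3 Nat.prime_three (by decide) G hP b hb
  omega

end Pool.Agent.S03366
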