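import Pool.Statements.S03735
import Pool.Agent.P.MP_086137_an.Final

set_option autoImplicit false
open Pool Pool.MP_086137_an

namespace Pool.Agent.S03735

/-- If a complex Banach algebra has every continuous derivation into every Banach bimodule approximable pointwise by uniformly bounded inner derivations, then every closed two-sided ideal of finite codimension has a bounded two-sided approximate identity. -/
theorem result :
    ∀ (A : Type) [NormedRing A] [NormedAlgebra ℂ A] [CompleteSpace A],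
      (∀ (X : Type) [NormedAddCommGroup X] [NormedSpace ℂ X] [CompleteSpace X]
          (L R : A →L[ℂ] X →L[ℂ] X),
          (∀ a b : A, L (a * b) = (L a).comp (L b)) →
          (∀ a b : A, R (a * b) = (R b).comp (R a)) →
          (∀ a b : A, (L a).comp (R b) = (R b).comp (L a)) →
          ∀ D : A →L[ℂ] X, (∀ a b : A, D (a * b) = L a (D b) + R b (D a)) →
            ∃ C : ℝ, ∀ F : Finset A, ∀ ε : ℝ, 0 < ε → ∃ ξ : X,
              (∀ a : A, ‖L a ξ - R a ξ‖ ≤ C * ‖a‖) ∧
                ∀ a ∈ F, ‖D a - (L a ξ - R a ξ)‖ < ε) →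
      ∀ J : Submodule ℂ A, (∀ a x : A, x ∈ J → a * x ∈ J ∧ x * a ∈ J) →
        IsClosed (J : Set A) → FiniteDimensional ℂ (A ⧸ J) →
        ∃ C : ℝ, ∀ F : Finset A, (∀ x ∈ F, x ∈ J) → ∀ ε : ℝ, 0 < ε →
          ∃ e ∈ J, ‖e‖ ≤ C ∧ ∀ x ∈ F, ‖e * x - x‖ < ε ∧ ‖x * e - x‖ < ε := by
  intro A _ _ _ h J hJ hc hf
  exact Pool.Agent.P.MP_086137_an.main_unital (fun X _ _ _ L R _ _ => h X L R) J hJ hc hf

end Pool.Agent.S03735
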