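import Pool.Statements.S03912
import Pool.Agent.P.MP_1672e2_an.Cx.Main

set_option autoImplicit false
open MeasureTheory
open scoped Manifold
open Pool Pool.MP_1672e2_an

namespace Pool.Agent.S03912

/-- The negation of the preceding statement: Every C^1 diffeomorphism of a compact surface is Borel-conjugate, off invariant Borel sets null for all positive-entropy ergodic measures, to a countable-state Markov shift restricted likewise. -/
theorem result :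
    ¬ (∀ (M : Type) [TopologicalSpace M] [ChartedSpace (EuclideanSpace ℝ (Fin 2)) M]
      [IsManifold (𝓡 2) 1 M] [CompactSpace M] [T2Space M]
      [MeasurableSpace M] [BorelSpace M]
      (f : Diffeomorph (𝓡 2) (𝓡 2) M M 1),
    ∃ (E : Set (ℕ × ℕ)) (M' : Set M) (X' : Set (ℤ → ℕ)),
      MeasurableSet M' ∧ MeasurableSet X' ∧
      (f : M → M) ⁻¹' M' = M' ∧
      (fun x : ℤ → ℕ => fun n => x (n + 1)) ⁻¹' X' = X' ∧
      X' ⊆ {x : ℤ → ℕ | ∀ n : ℤ, (x n, x (n + 1)) ∈ E} ∧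
      (∃ ψ : MeasurableEquiv (↥M') (↥X'),
        ∀ a b : ↥M', (b : M) = f (a : M) →
          ((ψ b : ↥X') : ℤ → ℕ) = fun n => ((ψ a : ↥X') : ℤ → ℕ) (n + 1)) ∧
      (∀ μ : Measure M, IsProbabilityMeasure μ → Ergodic (f : M → M) μ →
        (∃ k : ℕ, ∃ P : Fin k → Set M, (∀ i, MeasurableSet (P i)) ∧
          (∀ i j, i ≠ j → Disjoint (P i) (P j)) ∧ (⋃ i, P i) = Set.univ ∧
          ∃ c : ℝ, 0 < c ∧ ∀ n : ℕ, 0 < n →
            c * (n : ℝ) ≤ ∑ w : Fin n → Fin k,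
              Real.negMulLog (μ (⋂ i : Fin n, (f : M → M)^[(i : ℕ)] ⁻¹' P (w i))).toReal) →
        μ M'ᶜ = 0) ∧
      (∀ ν : Measure (ℤ → ℕ), IsProbabilityMeasure ν →
        Ergodic (fun x : ℤ → ℕ => fun n => x (n + 1)) ν →
        ν {x : ℤ → ℕ | ∀ n : ℤ, (x n, x (n + 1)) ∈ E} = 1 →
        (∃ k : ℕ, ∃ P : Fin k → Set (ℤ → ℕ), (∀ i, MeasurableSet (P i)) ∧
          (∀ i j, i ≠ j → Disjoint (P i) (P j)) ∧ (⋃ i, P i) = Set.univ ∧
          ∃ c : ℝ, 0 < c ∧ ∀ n : ℕ, 0 < n →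
            c * (n : ℝ) ≤ ∑ w : Fin n → Fin k,
              Real.negMulLog (ν (⋂ i : Fin n,
                (fun x : ℤ → ℕ => fun m => x (m + 1))^[(i : ℕ)] ⁻¹' P (w i))).toReal) →
        ν ({x : ℤ → ℕ | ∀ n : ℤ, (x n, x (n + 1)) ∈ E} \ X') = 0)) := by
  intro h
  obtain ⟨i1, i2, f, hf⟩ := Pool.Agent.P.MP_1672e2_an.Cx.counterexample
  obtain ⟨E, M', X', h1, h2, h3, h4, h5, h6, h7, h8⟩ := h Pool.Agent.P.MP_1672e2_an.Cx.Tor f
  exact hf ⟨E, M', X', h1, h2, h3, h4, h5, h6, fun μ a b c _ => h7 μ a b c, h8⟩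

end Pool.Agent.S03912
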