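import Pool.Statements.S04285
import Pool.Agent.P.MP_32de40_an.Main

set_option autoImplicit false
open MeasureTheory
open Pool Pool.MP_32de40_an

namespace Pool.Agent.S04285

/-- For every admissible modulus ω, every nonzero disc-algebra f with ω-controlled boundary modulus and every inner Θ: (spec Θ null and ∣f∣ ≤ C·ω(1/∣Θ′∣) on the circle off spec) holds iff for some ε, ∣f(z)∣ ≤ C·ω(1−∣z∣) wherever ∣Θ(z)∣ < ε. -/
theorem result :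
  ∀ (ω : ℝ → ℝ) (L : ℝ),
    ContinuousOn ω (Set.Ioo 0 1) →
    MonotoneOn ω (Set.Ioo 0 1) →
    (∀ t ∈ Set.Ioo (0:ℝ) 1, 0 < ω t) →
    Filter.Tendsto ω (nhdsWithin 0 (Set.Ioi 0)) (nhds 0) →
    AntitoneOn (fun t => ω t / t) (Set.Ioo 0 1) →
    Filter.Tendsto ω (nhdsWithin 1 (Set.Iio 1)) (nhds L) →
    ∀ f : ℂ → ℂ,
      DifferentiableOn ℂ f (Metric.ball 0 1) →
      ContinuousOn f (Metric.closedBall 0 1) →
      (∃ C : ℝ, ∃ δ₀ ∈ Set.Ioo (0:ℝ) 1, ∀ δ ∈ Set.Ioo 0 δ₀, ∀ x h : ℝ, |h| ≤ δ →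
          ‖f (Complex.exp (((x + h : ℝ) : ℂ) * Complex.I))
            - f (Complex.exp ((x : ℂ) * Complex.I))‖ ≤ C * ω δ) →
      (∃ z ∈ Metric.ball (0:ℂ) 1, f z ≠ 0) →
      ∀ Θ : ℂ → ℂ,
        DifferentiableOn ℂ Θ (Metric.ball 0 1) →
        (∀ z ∈ Metric.ball (0:ℂ) 1, ‖Θ z‖ ≤ 1) →
        (∀ᵐ θ : ℝ, ∃ w : ℂ, ‖w‖ = 1 ∧
          Filter.Tendsto (fun r : ℝ => Θ ((r : ℂ) * Complex.exp ((θ : ℂ) * Complex.I)))
            (nhdsWithin 1 (Set.Iio 1)) (nhds w)) →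
        ((MeasureTheory.volume {θ : ℝ | ¬ ∃ r > (0:ℝ), ∃ g : ℂ → ℂ,
              DifferentiableOn ℂ g (Metric.ball (Complex.exp ((θ:ℂ) * Complex.I)) r) ∧
              Set.EqOn g Θ (Metric.ball (Complex.exp ((θ:ℂ) * Complex.I)) r ∩ Metric.ball 0 1)} = 0 ∧
          ∃ C : ℝ, ∀ ζ : ℂ, ‖ζ‖ = 1 → ∀ r > (0:ℝ), ∀ g : ℂ → ℂ,
            DifferentiableOn ℂ g (Metric.ball ζ r) →
            Set.EqOn g Θ (Metric.ball ζ r ∩ Metric.ball 0 1) →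
            ‖f ζ‖ ≤ C * (if 1 < ‖deriv g ζ‖ then ω (1 / ‖deriv g ζ‖) else L))
         ↔
         (∃ ε ∈ Set.Ioo (0:ℝ) 1, ∃ C : ℝ, ∀ z ∈ Metric.ball (0:ℂ) 1, ‖Θ z‖ < ε →
            ‖f z‖ ≤ C * (if 1 - ‖z‖ < 1 then ω (1 - ‖z‖) else L))) := by
  intro ω L _ hmono hpos h0 hanti h1 f hfd hfc hmod hne Θ hd hb hl
  have hW := Pool.Agent.P.MP_32de40_an.isMod_ext hmono hpos h0 hanti h1
  obtain ⟨A, hA, hmod'⟩ := Pool.Agent.P.MP_32de40_an.boundary_modulus hW hfc (by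
    obtain ⟨C, δ₀, hδ₀, h⟩ := hmod
    refine ⟨C, δ₀, hδ₀, fun δ hδ x h' hh => ?_⟩
    rw [if_pos (hδ.2.trans hδ₀.2)]
    exact h δ hδ x h' hh)
  have key := Pool.Agent.P.MP_32de40_an.main_abstract hW hfd hfc hA hmod' hne hd hb hl
  have e : ∀ x : ℝ, (if 1 < x then (if 1 / x < 1 then ω (1 / x) else L)
      else (if (1:ℝ) < 1 then ω 1 else L)) = if 1 < x then ω (1 / x) else L := by
    intro x
    by_cases hx : 1 < x
    · rw [if_pos hx, if_pos hx, if_pos]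
      rw [div_lt_one (by linarith)]
      exact hx
    · rw [if_neg hx, if_neg hx, if_neg (lt_irrefl _)]
  simp only [e] at key
  exact key

end Pool.Agent.S04285
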