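import Pool.Statements.S04716
import Pool.Agent.P.MP_563d58_an.Main

set_option autoImplicit false
open MeasureTheory Filter Topology
open Pool Pool.MP_563d58_an

namespace Pool.Agent.S04716

/-- The negation of the preceding statement: For every closed C*-algebra E of bounded functions on the circle containing the continuous ones, every character of H∞∩E is approximated, on any finitely many elements, by Poisson evaluation at some point of the open unit disc. -/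
theorem result :
    ¬ (∀ S : Set (ℝ → ℂ),
    (∀ f ∈ S, Function.Periodic f (2 * Real.pi) ∧ AEStronglyMeasurable f volume ∧
        eLpNorm f (⊤ : ENNReal) volume < ⊤) →
    (∀ f : ℝ → ℂ, Continuous f → Function.Periodic f (2 * Real.pi) → f ∈ S) →
    (∀ f ∈ S, ∀ g ∈ S, f + g ∈ S) →
    (∀ f ∈ S, ∀ g ∈ S, f * g ∈ S) →
    (∀ c : ℂ, ∀ f ∈ S, c • f ∈ S) →
    (∀ f ∈ S, (fun t => star (f t)) ∈ S) →
    (∀ (F : ℕ → ℝ → ℂ) (f : ℝ → ℂ), (∀ n, F n ∈ S) → Function.Periodic f (2 * Real.pi) →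
        AEStronglyMeasurable f volume →
        Tendsto (fun n => eLpNorm (F n - f) (⊤ : ENNReal) volume) atTop (𝓝 0) → f ∈ S) →
    ∀ A : Set (ℝ → ℂ),
      A = {f | f ∈ S ∧ ∀ n : ℕ, 0 < n →
        ∫ t in (0:ℝ)..(2 * Real.pi), f t * Complex.exp ((n : ℂ) * (t : ℂ) * Complex.I) = 0} →
    ∀ φ : (ℝ → ℂ) → ℂ,
      φ (fun _ => 1) = 1 →
      (∀ f ∈ A, ∀ g ∈ A, φ (f + g) = φ f + φ g) →
      (∀ c : ℂ, ∀ f ∈ A, φ (c • f) = c * φ f) →
      (∀ f ∈ A, ∀ g ∈ A, φ (f * g) = φ f * φ g) →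
      (∀ f ∈ A, ∀ g ∈ A, f =ᵐ[volume] g → φ f = φ g) →
      ∀ (m : ℕ) (F : Fin m → ℝ → ℂ), (∀ i, F i ∈ A) →
        ∀ ε : ℝ, 0 < ε → ∃ z : ℂ, ‖z‖ < 1 ∧ ∀ i,
          ‖(∫ t in (0:ℝ)..(2 * Real.pi),
              F i t * (((1 - ‖z‖ ^ 2) / ‖Complex.exp ((t : ℂ) * Complex.I) - z‖ ^ 2 : ℝ) : ℂ))
              / (2 * (Real.pi : ℂ)) - φ (F i)‖ < ε) :=
  Pool.Agent.P.MP_563d58_an.main

end Pool.Agent.S04716
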