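import Pool.Statements.S05125
import Pool.Agent.P.MP_7b7370_an.FMain
import Pool.Agent.P.MP_7b7370_an.CL
import Pool.Agent.P.MP_7b7370_an.SBMain

set_option autoImplicit false
open Pool Pool.MP_7b7370_an

namespace Pool.Agent.S05125

/-- For N at least 5, the interior of any simple N-gon with no collinear consecutive vertices has first Dirichlet eigenvalue (Rayleigh-quotient infimum) at least that of a regular N-gon of equal area. -/
theorem result :
    ∀ N : ℕ, 5 ≤ N → ∀ (v : Fin N → ℂ) (Ω : Set ℂ) (r : ℝ) (Ω₀ : Set ℂ),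
      (∀ i : Fin N, ¬ Collinear ℝ
          ({v i, v (finRotate N i), v (finRotate N (finRotate N i))} : Set ℂ)) →
      (∀ i j : Fin N, i ≠ j →
          ∀ z ∈ segment ℝ (v i) (v (finRotate N i)) ∩ segment ℝ (v j) (v (finRotate N j)),
            (finRotate N i = j ∧ z = v j) ∨ (finRotate N j = i ∧ z = v i)) →
      IsOpen Ω → Bornology.IsBounded Ω →
      frontier Ω = ⋃ i : Fin N, segment ℝ (v i) (v (finRotate N i)) →
      0 < r → IsOpen Ω₀ → Bornology.IsBounded Ω₀ →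
      frontier Ω₀ = ⋃ i : Fin N,
          segment ℝ
            ((r : ℂ) * Complex.exp (2 * (Real.pi : ℂ) * Complex.I * (((i : ℕ) : ℂ)) / (N : ℂ)))
            ((r : ℂ) * Complex.exp (2 * (Real.pi : ℂ) * Complex.I *
                ((((finRotate N i : Fin N) : ℕ) : ℂ)) / (N : ℂ))) →
      MeasureTheory.volume Ω₀ = MeasureTheory.volume Ω →
      sInf {q : ℝ | ∃ f : ℂ → ℝ, ContDiff ℝ 1 f ∧ HasCompactSupport f ∧ tsupport f ⊆ Ω₀ ∧
          f ≠ 0 ∧ q = (∫ x, ‖fderiv ℝ f x‖ ^ 2) / (∫ x, f x ^ 2)}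
        ≤ sInf {q : ℝ | ∃ f : ℂ → ℝ, ContDiff ℝ 1 f ∧ HasCompactSupport f ∧ tsupport f ⊆ Ω ∧
          f ≠ 0 ∧ q = (∫ x, ‖fderiv ℝ f x‖ ^ 2) / (∫ x, f x ^ 2)} := by
  intro N hN v Ω r Ω₀ h1 h2 h3 h4 h5 hr ho hb hf hvol
  have i : Fin N := ⟨0, by omega⟩
  exact Pool.Agent.PSF.main Pool.Agent.PSF.cellIneq Pool.Agent.PSF.support4 hN v Ω r Ω₀
    ⟨h2, h3, h4, h5⟩ ⟨i, finRotate N i, finRotate N (finRotate N i), h1 i⟩ hr ho hb hf hvol

end Pool.Agent.S05125
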