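import Pool.Statements.S06017
import Pool.Agent.P.MP_c161d8_an.Final

set_option autoImplicit false
open Pool Pool.MP_c161d8_an

namespace Pool.Agent.S06017

/-- For every set S of positive integers with ∑_{p∈S} 1/p finite, and every Jordan arc given by an injective continuous map f from [0,1] to ℂ, the functions f^p (p in S) do not have dense linear span in the continuous complex functions on [0,1]. -/
theorem result :
    ∀ S : Set ℕ, (∀ p ∈ S, 0 < p) →
      Summable (fun p : S => (1 : ℝ) / ((p : ℕ) : ℝ)) →
      ∀ f : C(unitInterval, ℂ), Function.Injective f →
        (Submodule.span ℂ (Set.range (fun p : S => f ^ (p : ℕ)))).topologicalClosure ≠ ⊤ := by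
  exact Pool.Agent.P.MP_c161d8_an.main_all

end Pool.Agent.S06017
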