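import Pool.Statements.S06048
import Pool.Agent.K.MP_c3cac0_an.C1

set_option autoImplicit false
open Pool Pool.MP_c3cac0_an

namespace Pool.Agent.S06048

/-- The negation of the preceding statement: For every Blaschke product B(z)=z·∏(z−τ_k)/(1−conj(τ_k)z) with m≥1 nonzero zeros τ_k in the unit disc, some critical point ζ in the disc satisfies ∣B(ζ)∣ ≤ ∣B'(0)∣·∣ζ∣. -/
theorem result :
    ¬ (∀ m : ℕ, 1 ≤ m → ∀ τ : Fin m → ℂ, (∀ k, τ k ≠ 0 ∧ ‖τ k‖ < 1) →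
      ∃ ζ : ℂ, ‖ζ‖ < 1 ∧
        deriv (fun z : ℂ => z * ∏ k, (z - τ k) / (1 - starRingEnd ℂ (τ k) * z)) ζ = 0 ∧
        ‖ζ * ∏ k, (ζ - τ k) / (1 - starRingEnd ℂ (τ k) * ζ)‖ ≤
          ‖deriv (fun z : ℂ => z * ∏ k, (z - τ k) / (1 - starRingEnd ℂ (τ k) * z)) 0‖ * ‖ζ‖) :=
  Pool.Agent.P.MP_c3cac0_an.Sm.main

end Pool.Agent.S06048
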