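import Pool.Statements.S06648
import Pool.Agent.P.MP_f066c6_an.Main

set_option autoImplicit false
open Pool Pool.MP_f066c6_an

namespace Pool.Agent.S06648

/-- The negation of the preceding statement: For every 1<p<∞ there is c>0 such that for all d≥1, n, every f on {-1,1}^n with Fourier coefficients vanishing on sets of size <d, and all t≥0, the L^p norm of e^{-tΔ}f is at most e^{-tdc} times the L^p norm of f. -/
theorem result :
    ¬ (∀ p : ℝ, 1 < p → ∃ c : ℝ, 0 < c ∧
      ∀ (d n : ℕ), 1 ≤ d → ∀ f : (Fin n → Bool) → ℝ,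
        (∀ S : Finset (Fin n), S.card < d →
          ∑ x : Fin n → Bool, f x * ∏ i ∈ S, (if x i then (-1 : ℝ) else 1) = 0) →
        ∀ t : ℝ, 0 ≤ t →
          (∑ x : Fin n → Bool,
              |∑ S : Finset (Fin n),
                  Real.exp (-t * (S.card : ℝ)) *
                    ((1 / (2 : ℝ) ^ n) *
                      ∑ y : Fin n → Bool, f y * ∏ i ∈ S, (if y i then (-1 : ℝ) else 1)) *
                    ∏ i ∈ S, (if x i then (-1 : ℝ) else 1)| ^ p) ^ (1 / p)
            ≤ Real.exp (-t * (d : ℝ) * c) *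
              (∑ x : Fin n → Bool, |f x| ^ p) ^ (1 / p)) := by
  intro h
  obtain ⟨c, hc, H⟩ := h (4 / 3) (by norm_num)
  refine Pool.Agent.P.MP_f066c6_an.not_smoothing hc fun d n hd t ht f hf => ?_
  have H1 := H d n hd f hf t ht
  refine le_trans (le_of_eq ?_) H1
  congr 1
  refine Finset.sum_congr rfl fun x _ => ?_
  congr 2
  unfold Pool.Agent.P.MP_f066c6_an.heat
  refine Finset.sum_congr rfl fun S _ => ?_
  rw [← Real.exp_nat_mul, mul_comm (S.card : ℝ)]
  congr 2
  unfold Pool.Agent.P.MP_f066c6_an.av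
  rw [Fintype.card_fun, Fintype.card_bool, Fintype.card_fin, one_div, inv_mul_eq_div]
  push_cast
  rfl

end Pool.Agent.S06648
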