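import Pool.Statements.S06827
import Pool.Agent.P.MP_fd6048_an.Main

set_option autoImplicit false
open Pool Pool.MP_fd6048_an

namespace Pool.Agent.S06827

/-- For every real or complex F-space X and every hypercyclic operator T on X, some dense subspace of X, with the same Hamel dimension as X, has all its nonzero vectors hypercyclic for T. -/
theorem result :
    ∀ (𝕂 : Type) [RCLike 𝕂] (X : Type) [AddCommGroup X] [Module 𝕂 X] [UniformSpace X]
      [IsUniformAddGroup X] [CompleteSpace X] [ContinuousSMul 𝕂 X]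
      [TopologicalSpace.MetrizableSpace X] (T : X →L[𝕂] X),
      (∃ x : X, Dense (Set.range fun n : ℕ => (⇑T)^[n] x)) →
      ∃ M : Submodule 𝕂 X, Dense (M : Set X) ∧
        (∀ x ∈ M, x ≠ 0 → Dense (Set.range fun n : ℕ => (⇑T)^[n] x)) ∧
        Module.rank 𝕂 M = Module.rank 𝕂 X := by
  intro 𝕂 _ X _ _ _ _ _ _ _ T hT
  obtain ⟨x, hx⟩ := hT
  rcases subsingleton_or_nontrivial X with h | h
  · exact ⟨⊤, by simp, fun z _ hz => absurd (Subsingleton.elim z 0) hz, rank_top 𝕂 X⟩
  · have e : ∀ z : X, (fun n : ℕ => (⇑T)^[n] z) =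
        fun n : ℕ => ((T.toLinearMap : Module.End 𝕂 X) ^ n) z := by
      intro z
      funext n
      exact (Module.End.pow_apply (T.toLinearMap : Module.End 𝕂 X) n z).symm
    simp only [e] at hx ⊢
    exact Pool.Agent.P.MP_fd6048_an.main 𝕂 X T.toLinearMap T.continuous x hx

end Pool.Agent.S06827
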