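import Pool.Statements.S07247
import Pool.Agent.P.MP_11624f_co.Init

set_option autoImplicit false
open Pool Pool.MP_11624f_co

namespace Pool.Agent.S07247

/-- For any two graphs on the same n vertices, each with minimum degree at least 2, some vertex set of size at most 3n/5 dominates both graphs at once. -/
theorem result :
    ∀ (n : ℕ) (G₁ G₂ : SimpleGraph (Fin n)),
      (∀ v : Fin n, ∃ a b : Fin n, a ≠ b ∧ G₁.Adj v a ∧ G₁.Adj v b) →
      (∀ v : Fin n, ∃ a b : Fin n, a ≠ b ∧ G₂.Adj v a ∧ G₂.Adj v b) →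
      ∃ S : Finset (Fin n), 5 * S.card ≤ 3 * n ∧
        ∀ v : Fin n, (v ∈ S ∨ ∃ u ∈ S, G₁.Adj v u) ∧ (v ∈ S ∨ ∃ u ∈ S, G₂.Adj v u) :=
  Pool.Agent.P.MP_11624f_co.main

end Pool.Agent.S07247
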