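import Pool.Statements.S07336
import Pool.Agent.P.MP_163cb0_co.Cex

set_option autoImplicit false
open Pool Pool.MP_163cb0_co

namespace Pool.Agent.S07336

/-- The negation of the preceding statement: Every finite digraph has a set S of vertices, with no arc between any two distinct members, that meets every longest directed path and such that each member of S is the first vertex of some longest directed path. -/
theorem result :
    ¬ (∀ (V : Type) [Fintype V] (D : Digraph V),
      ∃ S : Set V,
        (∀ u ∈ S, ∀ v ∈ S, u ≠ v → ¬ D.Adj u v) ∧
        (∀ (n : ℕ) (p : Fin (n + 1) → V),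
            (Function.Injective p ∧
              (∀ i : Fin n, D.Adj (p i.castSucc) (p i.succ)) ∧
              ∀ (m : ℕ) (q : Fin (m + 1) → V), Function.Injective q →
                (∀ i : Fin m, D.Adj (q i.castSucc) (q i.succ)) → m ≤ n) →
            ∃ i : Fin (n + 1), p i ∈ S) ∧
        (∀ s ∈ S, ∃ (n : ℕ) (p : Fin (n + 1) → V),
            (Function.Injective p ∧
              (∀ i : Fin n, D.Adj (p i.castSucc) (p i.succ)) ∧
              ∀ (m : ℕ) (q : Fin (m + 1) → V), Function.Injective q →
                (∀ i : Fin m, D.Adj (q i.castSucc) (q i.succ)) → m ≤ n) ∧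
            p 0 = s)) :=
  Pool.Agent.P.MP_163cb0_co.main

end Pool.Agent.S07336
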