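import Pool.Statements.S08356
import Pool.Agent.K.MP_416653_co.C0

set_option autoImplicit false
open Pool Pool.MP_416653_co

namespace Pool.Agent.S08356

theorem result :
    ¬ (∀ (V : Type) [Fintype V] [DecidableEq V] (G : SimpleGraph V) [DecidableRel G.Adj]
      (hA : (G.adjMatrix ℝ).IsHermitian) (ω : ℕ),
      (∃ s : Finset V, G.IsNClique ω s) →
      (∀ (k : ℕ) (s : Finset V), G.IsNClique k s → k ≤ ω) →
      ∀ S : Finset V, S.card ≤ ω → (∀ i ∈ S, 0 < hA.eigenvalues i) →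
        ∑ i ∈ S, hA.eigenvalues i ^ 2 ≤ 2 * (1 - 1 / (ω : ℝ)) * (Nat.card G.edgeSet : ℝ)) :=
  Pool.Agent.P.MP_416653_co.main_neg

end Pool.Agent.S08356
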