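import Pool.Statements.S08892
import Pool.Agent.P.MP_58cc54_co.Final

set_option autoImplicit false
open Pool Pool.MP_58cc54_co

namespace Pool.Agent.S08892

/-- The negation of the preceding statement: For every connected graph H with as many edges as vertices, the largest bias b for which Enforcer wins the strict 1:b Avoider-Enforcer H-game on K_n is between c₁·n^{v/(v−1)} and c₂·n^{v/(v−1)} for all large n. -/
theorem result :
    ¬ (∀ (V : Type) [Fintype V] [DecidableEq V] (H : SimpleGraph V) [DecidableRel H.Adj],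
      H.Connected → H.edgeFinset.card = Fintype.card V →
      ∃ c₁ c₂ : ℝ, 0 < c₁ ∧ 0 < c₂ ∧ ∃ n₀ : ℕ, ∀ n : ℕ, n₀ ≤ n →
        (∃ b : ℕ, c₁ * (n : ℝ) ^ ((Fintype.card V : ℝ) / ((Fintype.card V : ℝ) - 1)) ≤ (b : ℝ) ∧
          ∃ S : Set (Finset (Sym2 (Fin n)) × Finset (Sym2 (Fin n))),
            ((∅ : Finset (Sym2 (Fin n))), (∅ : Finset (Sym2 (Fin n)))) ∈ S ∧
            ∀ p ∈ S,
              ((Finset.univ.filter (fun e : Sym2 (Fin n) => ¬ e.IsDiag)) \ (p.1 ∪ p.2) = ∅ →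
                H.IsContained (SimpleGraph.fromEdgeSet (p.1 : Set (Sym2 (Fin n))))) ∧
              ∀ e ∈ (Finset.univ.filter (fun e : Sym2 (Fin n) => ¬ e.IsDiag)) \ (p.1 ∪ p.2),
                ∃ T : Finset (Sym2 (Fin n)),
                  T ⊆ (Finset.univ.filter (fun e : Sym2 (Fin n) => ¬ e.IsDiag)) \ (insert e (p.1 ∪ p.2)) ∧
                  T.card = min b ((Finset.univ.filter (fun e : Sym2 (Fin n) => ¬ e.IsDiag)) \ (insert e (p.1 ∪ p.2))).card ∧
                  (insert e p.1, p.2 ∪ T) ∈ S) ∧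
        (∀ b : ℕ,
          (∃ S : Set (Finset (Sym2 (Fin n)) × Finset (Sym2 (Fin n))),
            ((∅ : Finset (Sym2 (Fin n))), (∅ : Finset (Sym2 (Fin n)))) ∈ S ∧
            ∀ p ∈ S,
              ((Finset.univ.filter (fun e : Sym2 (Fin n) => ¬ e.IsDiag)) \ (p.1 ∪ p.2) = ∅ →
                H.IsContained (SimpleGraph.fromEdgeSet (p.1 : Set (Sym2 (Fin n))))) ∧
              ∀ e ∈ (Finset.univ.filter (fun e : Sym2 (Fin n) => ¬ e.IsDiag)) \ (p.1 ∪ p.2),
                ∃ T : Finset (Sym2 (Fin n)),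
                  T ⊆ (Finset.univ.filter (fun e : Sym2 (Fin n) => ¬ e.IsDiag)) \ (insert e (p.1 ∪ p.2)) ∧
                  T.card = min b ((Finset.univ.filter (fun e : Sym2 (Fin n) => ¬ e.IsDiag)) \ (insert e (p.1 ∪ p.2))).card ∧
                  (insert e p.1, p.2 ∪ T) ∈ S) →
          (b : ℝ) ≤ c₂ * (n : ℝ) ^ ((Fintype.card V : ℝ) / ((Fintype.card V : ℝ) - 1)))) := by
  intro h
  obtain ⟨c₁, c₂, h₁, h₂, n₀, hn⟩ := h (Fin 3) ⊤ SimpleGraph.connected_top (by decide)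
  obtain ⟨n, hn₀, hgap⟩ := Pool.Agent.P.MP_58cc54_co.triangle_gap c₁ c₂ h₁ h₂ n₀
  obtain ⟨⟨b, hb, hS⟩, hup⟩ := hn n hn₀
  have e : ((Fintype.card (Fin 3) : ℝ) / ((Fintype.card (Fin 3) : ℝ) - 1)) = 3 / 2 := by
    rw [Fintype.card_fin]; norm_num
  have hb2 := hup b hS
  rw [e] at hb hb2
  exact hgap b hb hb2 hS

end Pool.Agent.S08892
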