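import Pool.Statements.S09469
import Pool.Agent.P.MP_72c5f4_co.Main

set_option autoImplicit false
open Pool Pool.MP_72c5f4_co

namespace Pool.Agent.S09469

/-- For every M, all sufficiently large n with n ≡ 1 or 3 mod 6 admit at least M pairwise non-isomorphic cyclic Steiner triple systems on Z/nZ, i.e. the number of cyclic STS(n) up to isomorphism tends to infinity. -/
theorem result :
    ∀ M : ℕ, ∃ N : ℕ, ∀ n : ℕ, N ≤ n → (n % 6 = 1 ∨ n % 6 = 3) →
      ∃ B : Fin M → Finset (Finset (ZMod n)),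
        (∀ i, (∀ b ∈ B i, b.card = 3) ∧
          (∀ x y : ZMod n, x ≠ y → ∃! b : Finset (ZMod n), b ∈ B i ∧ x ∈ b ∧ y ∈ b) ∧
          (∀ b ∈ B i, b.image (fun x => x + 1) ∈ B i)) ∧
        (∀ i j, i ≠ j → ¬ ∃ σ : Equiv.Perm (ZMod n),
          ∀ b : Finset (ZMod n), b ∈ B i ↔ b.map σ.toEmbedding ∈ B j) := by
  intro M
  refine ⟨6 * (9 * M + 8) + 3, fun n hN hn => ?_⟩
  haveI : NeZero n := ⟨by omega⟩
  obtain ⟨k, hk⟩ : ∃ k, n = 6 * k + 1 ∨ n = 6 * k + 3 := ⟨n / 6, by omega⟩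
  have hk8 : 9 * M + 8 ≤ k := by omega
  have hsq := Pool.Agent.P.MP_72c5f4_co.sq_le_two_pow k (by omega)
  have hM : M * n < 2 ^ k + n := by
    have h1 : n ≤ 9 * k := by omega
    have h2 : M * n ≤ M * (9 * k) := Nat.mul_le_mul_left M h1
    have h3 : 9 * M * k ≤ k * k := Nat.mul_le_mul_right k (by omega)
    have h4 : 0 < n := by omega
    nlinarith
  exact Pool.Agent.P.MP_72c5f4_co.many_cyclic M k n (by omega) hk hM

end Pool.Agent.S09469
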