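import Pool.Statements.S09616
import Pool.Agent.K.MP_78b4c6_co.C0

set_option autoImplicit false
open Pool Pool.MP_78b4c6_co

namespace Pool.Agent.S09616

/-- The negation of the preceding statement: For n ≥ 1, if A_1,…,A_t are n×n 0-1 matrices with ones on the diagonal, oriented off the diagonal, A_k has all row sums ≥ r_k+1 (r_k natural) and the r_k sum to at least n, then trace(A_1⋯A_t) > n. -/
theorem result :
    ¬ (∀ (n t : ℕ), 0 < n →
      ∀ (A : Fin t → Matrix (Fin n) (Fin n) ℕ) (r : Fin t → ℕ),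
        (∀ k i j, A k i j = 0 ∨ A k i j = 1) →
        (∀ k i, A k i i = 1) →
        (∀ k i j, i ≠ j → A k i j = 1 → A k j i ≠ 1) →
        (∀ k i, r k + 1 ≤ ∑ j, A k i j) →
        n ≤ ∑ k, r k →
        n < Matrix.trace (List.ofFn A).prod) :=
  Pool.Agent.P.MP_78b4c6_co.main

end Pool.Agent.S09616
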