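import Pool.Statements.S09737
import Pool.Agent.P.MP_7fcf1c_co.Main

set_option autoImplicit false
open Pool Pool.MP_7fcf1c_co

namespace Pool.Agent.S09737

/-- For every N there is a finite graph that is k-choosable for some k ≥ 1 but is not N·k-paintable in the on-line list colouring game, so on-line choice number over choice number exceeds N. -/
theorem result :
    ∀ N : ℕ, ∃ (V : Type) (_ : Fintype V) (_ : DecidableEq V) (G : SimpleGraph V) (k : ℕ),
      1 ≤ k ∧
      (∀ L : V → Finset ℕ, (∀ v, k ≤ (L v).card) →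
        ∃ c : V → ℕ, (∀ v, c v ∈ L v) ∧ ∀ u v, G.Adj u v → c u ≠ c v) ∧
      ¬ (∀ P : Finset V → (V → ℕ) → Prop,
          (∀ (S : Finset V) (f : V → ℕ), (∀ v ∈ S, 1 ≤ f v) →
            (∀ M ⊆ S, M.Nonempty → ∃ I ⊆ M, G.IsIndepSet (↑I : Set V) ∧
               P (S \ I) (fun v => if v ∈ M \ I then f v - 1 else f v)) →
            P S f) →
          P Finset.univ (fun _ => N * k)) :=
  Pool.Agent.P.MP_7fcf1c_co.main

end Pool.Agent.S09737
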