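import Pool.Statements.S10208
import Pool.Agent.P.MP_9484ad_co.Main

set_option autoImplicit false
open Pool Pool.MP_9484ad_co

namespace Pool.Agent.S10208

/-- The negation of the preceding statement: There are ε>0 and C>0 such that for every prime p ≡ 1 mod 4, every degree-4 pseudo-moment vector for a clique in the Paley graph on Z/p (PSD moment matrix, vanishing on non-cliques) has objective at most C·p^(1/2−ε). -/
theorem result :
    ¬ (∃ ε : ℝ, 0 < ε ∧ ∃ C : ℝ, 0 < C ∧
      ∀ (p : ℕ) [NeZero p], p.Prime → p % 4 = 1 →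
        ∀ y : Finset (ZMod p) → ℝ,
          y ∅ = 1 →
          (∀ S : Finset (ZMod p), S.card ≤ 4 →
              (∃ a ∈ S, ∃ b ∈ S, a ≠ b ∧ ¬ IsSquare (a - b)) → y S = 0) →
          (∀ c : Finset (ZMod p) → ℝ, (∀ S : Finset (ZMod p), 2 < S.card → c S = 0) →
              0 ≤ ∑ S : Finset (ZMod p), ∑ T : Finset (ZMod p), c S * c T * y (S ∪ T)) →
          ∑ i : ZMod p, y {i} ≤ C * (p : ℝ) ^ ((1 : ℝ) / 2 - ε)) :=
  Pool.Agent.P.MP_9484ad_co.paley_sos

end Pool.Agent.S10208
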