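import Pool.Statements.S10226
import Pool.Agent.P.MP_951455_co.Graph

set_option autoImplicit false
open Pool Pool.MP_951455_co

namespace Pool.Agent.S10226

/-- Counterexample: for `K = 400 c^2 + 1` and `b = 2^K`, let `G` be the disjoint union over `j < K` of the
depth-two trees `T_j` on `b` vertices with `2^(K-j)` centres, each of degree about `2^j`.  `G` is a planar forest
with path-partition-width at most `b`.  Each `T_j` has radius two, so it meets at most five layers of the path and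
at most `5c` of its vertices share an `H`-coordinate; counting vertices of large degree in `H` gives
`K 2^K ≤ 2 (5c)^2 ∑ (deg + 1)`, while treewidth at most 3 gives `∑ (deg + 1) ≤ 8 b`.  The length of the path plays no
role in the argument, so we take `k = n` (the same graph has treewidth one and `n = K b`, so `k = K` works too). -/
theorem result :
    ¬ (∃ c : ℕ, 1 ≤ c ∧
  ∀ n k b : ℕ, 1 ≤ n → 1 ≤ k → 1 ≤ b → n ≤ k * b →
  ∀ G : SimpleGraph (Fin n),
    (∃ p : Fin n → ℝ × ℝ, Function.Injective p ∧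
      ∃ γ : Fin n → Fin n → unitInterval → ℝ × ℝ,
        (∀ u v, G.Adj u v → Continuous (γ u v) ∧ Function.Injective (γ u v) ∧
            γ u v 0 = p u ∧ γ u v 1 = p v) ∧
        (∀ u v w x, G.Adj u v → γ u v x = p w → (w = u ∧ x = 0) ∨ (w = v ∧ x = 1)) ∧
        (∀ u v u' v' x y, G.Adj u v → G.Adj u' v' → Sym2.mk (u, v) ≠ Sym2.mk (u', v') →
            γ u v x = γ u' v' y → ∃ w, γ u v x = p w)) →
    (∃ m : ℕ, ∃ T : SimpleGraph (Fin m), T.IsTree ∧
      ∃ B : Fin m → Finset (Fin n),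
        (∀ v, ∃ i, v ∈ B i) ∧
        (∀ u v, G.Adj u v → ∃ i, u ∈ B i ∧ v ∈ B i) ∧
        (∀ v, (T.induce {i | v ∈ B i}).Connected) ∧
        (∀ i, (B i).card ≤ k + 1)) →
    (∃ f : Fin n → ℕ,
      (∀ u v, G.Adj u v → f u ≤ f v + 1 ∧ f v ≤ f u + 1) ∧
      (∀ i : ℕ, (Finset.univ.filter (fun v => f v = i)).card ≤ b)) →
    ∃ m : ℕ, m ≤ b ∧ ∃ H : SimpleGraph (Fin m),
      (∃ p : Fin m → ℝ × ℝ, Function.Injective p ∧
        ∃ γ : Fin m → Fin m → unitInterval → ℝ × ℝ,
          (∀ u v, H.Adj u v → Continuous (γ u v) ∧ Function.Injective (γ u v) ∧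
              γ u v 0 = p u ∧ γ u v 1 = p v) ∧
          (∀ u v w x, H.Adj u v → γ u v x = p w → (w = u ∧ x = 0) ∨ (w = v ∧ x = 1)) ∧
          (∀ u v u' v' x y, H.Adj u v → H.Adj u' v' → Sym2.mk (u, v) ≠ Sym2.mk (u', v') →
              γ u v x = γ u' v' y → ∃ w, γ u v x = p w)) ∧
      (∃ r : ℕ, ∃ T : SimpleGraph (Fin r), T.IsTree ∧
        ∃ B : Fin r → Finset (Fin m),
          (∀ v, ∃ i, v ∈ B i) ∧
          (∀ u v, H.Adj u v → ∃ i, u ∈ B i ∧ v ∈ B i) ∧
          (∀ v, (T.induce {i | v ∈ B i}).Connected) ∧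
          (∀ i, (B i).card ≤ 3 + 1)) ∧
      ∃ φ : Fin n → Fin m × Fin k × Fin c, Function.Injective φ ∧
        ∀ u v, G.Adj u v →
          ((φ u).1 = (φ v).1 ∨ H.Adj (φ u).1 (φ v).1) ∧
          ((φ u).2.1 = (φ v).2.1 ∨ (SimpleGraph.pathGraph k).Adj (φ u).2.1 (φ v).2.1)) := by
  classical
  rintro ⟨c, hc, hmain⟩
  obtain ⟨n, J, A, S, hlt, hbd, hsurj⟩ := Pool.Agent.P.MP_951455_co.exists_enum (400 * c ^ 2 + 1)
  have hK : 0 < 400 * c ^ 2 + 1 := Nat.succ_pos _
  have hb : 1 ≤ 2 ^ (400 * c ^ 2 + 1) := Nat.one_le_two_pow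
  have hn : 1 ≤ n := by
    obtain ⟨u, -⟩ := hsurj 0 hK 0 (Nat.two_pow_pos _) 0 (Nat.two_pow_pos _)
    exact u.pos
  obtain ⟨m, hm, H, -, ⟨r, T, hT, B, -, hE, hC, hw⟩, φ, hφ, hadj⟩ :=
    hmain n n (2 ^ (400 * c ^ 2 + 1)) hn hn hb (Nat.le_mul_of_pos_right _ hb)
      (Pool.Agent.P.MP_951455_co.forest J A S)
      (by
        obtain ⟨p, hp, γ, h1, h2, h3⟩ := Pool.Agent.P.MP_951455_co.planar_of_noncross _
          (Pool.Agent.P.MP_951455_co.forest_noncross J A S hlt)
        refine ⟨p, hp, γ, h1, h2, ?_⟩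
        intro u v u' v' x y huv huv' hne
        exact h3 u v u' v' x y huv huv' (fun h => hne (by rw [h])))
      (by
        refine ⟨1, ⊥, SimpleGraph.IsTree.of_subsingleton, fun _ => Finset.univ, ?_, ?_, ?_, ?_⟩
        · intro v; exact ⟨0, Finset.mem_univ _⟩
        · intro u v _; exact ⟨0, Finset.mem_univ _, Finset.mem_univ _⟩
        · intro v
          have : Nonempty {i : Fin 1 | v ∈ (Finset.univ : Finset (Fin n))} :=
            ⟨⟨0, by simp⟩⟩
          exact SimpleGraph.IsTree.of_subsingleton.connected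
        · intro i; simp)
      (by
        refine ⟨J, ?_, Pool.Agent.P.MP_951455_co.layer_card J A S hlt hbd⟩
        intro u v huv
        have := huv.1
        omega)
  have hle := Pool.Agent.P.MP_951455_co.no_embedding J A S hsurj H T hT B hE hC hw φ hφ hadj hK
  have h2 : 400 * c ^ 2 * m ≤ 400 * c ^ 2 * 2 ^ (400 * c ^ 2 + 1) := Nat.mul_le_mul_left _ hm
  have h3 := Nat.le_of_mul_le_mul_right (hle.trans h2) hb
  omega

end Pool.Agent.S10226
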