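import Pool.Statements.S10323
import Pool.Agent.P.MP_993692_co.Main

set_option autoImplicit false
open Pool Pool.MP_993692_co

namespace Pool.Agent.S10323

/-- For all k, ℓ there is D such that every finite graph with treewidth ≤ k and max degree ≤ ℓ has a straight-line plane drawing with distinct vertex points and no vertex on a non-incident edge, using at most D distinct edge lengths. -/
theorem result :
    ∀ k ℓ : ℕ, ∃ D : ℕ, ∀ (V : Type) [Fintype V] (G : SimpleGraph V),
      (∃ (ι : Type) (_ : Fintype ι) (T : SimpleGraph ι) (B : ι → Finset V),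
        T.IsTree ∧ (∀ i, (B i).card ≤ k + 1) ∧ (∀ v, ∃ i, v ∈ B i) ∧
        (∀ u v, G.Adj u v → ∃ i, u ∈ B i ∧ v ∈ B i) ∧
        (∀ v i j, v ∈ B i → v ∈ B j → ∃ q : T.Walk i j, ∀ x ∈ q.support, v ∈ B x)) →
      (∀ v, (G.neighborSet v).ncard ≤ ℓ) →
      ∃ p : V → EuclideanSpace ℝ (Fin 2), Function.Injective p ∧
        (∀ u v w, G.Adj u v → w ≠ u → w ≠ v → p w ∉ segment ℝ (p u) (p v)) ∧
        {d : ℝ | ∃ u v, G.Adj u v ∧ dist (p u) (p v) = d}.ncard ≤ D :=
  Pool.Agent.P.MP_993692_co.main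

end Pool.Agent.S10323
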