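import Pool.Statements.S10480
import Pool.Agent.P.MP_a0dde7_co.Main

set_option autoImplicit false
open Pool Pool.MP_a0dde7_co

namespace Pool.Agent.S10480

/-- The negation of the preceding statement: For every k and every α in [0,1/2], any finite nonempty graph with minimum degree at least (1+α)k/2 and maximum degree at least 2(1−α)k contains a copy of every tree with k edges. -/
theorem result :
    ¬ (∀ (k : ℕ) (α : ℝ), 0 ≤ α → α ≤ 1 / 2 →
      ∀ (V : Type) [Fintype V] [Nonempty V] (G : SimpleGraph V) [DecidableRel G.Adj],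
        (1 + α) * (k : ℝ) / 2 ≤ (G.minDegree : ℝ) →
        2 * (1 - α) * (k : ℝ) ≤ (G.maxDegree : ℝ) →
        ∀ T : SimpleGraph (Fin (k + 1)), T.IsTree → T.IsContained G) := by
  intro h
  obtain ⟨h1, h2, T, hT, hn⟩ := Pool.Agent.P.MP_a0dde7_co.family 8 (by norm_num) 30 (by norm_num)
  refine hn (h 30 0 le_rfl (by norm_num) _ (Pool.Agent.P.MP_a0dde7_co.apexRook 8) ?_ ?_ T hT)
  · have e : (Pool.Agent.P.MP_a0dde7_co.apexRook 8).minDegree = 15 := by omega
    rw [e]
    norm_num
  · have e : ((60 : ℕ) : ℝ) ≤ ((Pool.Agent.P.MP_a0dde7_co.apexRook 8).maxDegree : ℝ) := by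
      exact_mod_cast le_trans (by norm_num) h2
    refine le_trans ?_ e
    norm_num

end Pool.Agent.S10480
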