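import Pool.Statements.S10730
import Pool.Agent.K.MP_abed8b_co.C6

set_option autoImplicit false
open Pool Pool.MP_abed8b_co

namespace Pool.Agent.S10730

/-- The negation of the preceding statement: For every finite bipartite simple graph with sides A, B, if q is a real number exceeding the smaller of the two side maximum degrees, then the chromatic polynomial (via the subgraph expansion) evaluated at q is positive. -/
theorem result :
    ¬ (∀ (V : Type) [Fintype V] [DecidableEq V] (G : SimpleGraph V) [DecidableRel G.Adj]
      (A : Set V) (dA dB : ℕ),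
      (∀ u v : V, G.Adj u v → (u ∈ A ↔ v ∉ A)) →
      (∀ v : V, v ∈ A → G.degree v ≤ dA) →
      (∀ v : V, v ∉ A → G.degree v ≤ dB) →
      ∀ q : ℝ, ((min dA dB : ℕ) : ℝ) < q →
        0 < ∑ S ∈ G.edgeFinset.powerset,
          (-1 : ℝ) ^ S.card *
            q ^ Nat.card (SimpleGraph.fromEdgeSet (S : Set (Sym2 V))).ConnectedComponent) := by
  exact Pool.Agent.P.MP_abed8b_co.not_conj

end Pool.Agent.S10730
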