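import Pool.Statements.S10823
import Pool.Agent.P.MP_b00834_co.V7

set_option autoImplicit false
open Pool Pool.MP_b00834_co

namespace Pool.Agent.S10823

/-- Every finite matroid with at least two elements in which any two elements share a circuit has a list of c cocircuits (c = largest circuit size, repeats allowed) covering every element at least twice. -/
theorem result :
    ∀ (α : Type) (M : Matroid α), M.Finite →
      2 ≤ M.E.ncard →
      (∀ e ∈ M.E, ∀ f ∈ M.E, ∃ C : Set α, M.IsCircuit C ∧ e ∈ C ∧ f ∈ C) →
      ∀ c : ℕ,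
        (∃ C : Set α, M.IsCircuit C ∧ C.ncard = c) →
        (∀ C : Set α, M.IsCircuit C → C.ncard ≤ c) →
        ∃ D : Fin c → Set α,
          (∀ i, M.IsCocircuit (D i)) ∧
          ∀ e ∈ M.E, ∃ i j : Fin c, i ≠ j ∧ e ∈ D i ∧ e ∈ D j := by
  intro α M hM h2 hc c _ h
  exact Pool.Agent.Vert.vertigan M h2 hc c h

end Pool.Agent.S10823
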