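import Pool.Statements.S10952
import Pool.Agent.K.MP_b5e666_co.C2

set_option autoImplicit false
open Pool Pool.MP_b5e666_co

namespace Pool.Agent.S10952

/-- The negation of the preceding statement: For every n ≥ 1 and every intersecting family H of subsets of an n-element set, H can be split into n classes so that any two distinct sets in the same class share at least two elements. -/
theorem result :
    ¬ (∀ n : ℕ, 1 ≤ n → ∀ H : Finset (Finset (Fin n)),
      (H : Set (Finset (Fin n))).Intersecting →
      ∃ f : Finset (Fin n) → Fin n,
        ∀ F ∈ H, ∀ F' ∈ H, F ≠ F' → f F = f F' → 2 ≤ (F ∩ F').card) :=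
  Pool.Agent.P.MP_b5e666_co.Lar.main

end Pool.Agent.S10952
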