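import Pool.Statements.S11547
import Pool.Agent.K.MP_cfb0df_co.C0

set_option autoImplicit false
open Pool Pool.MP_cfb0df_co

namespace Pool.Agent.S11547

open Pool.Agent.P.MP_cfb0df_co in
theorem result :
    ∃ (k r a m : ℕ) (e : Fin m → Finset (Fin a)),
      2 ≤ k ∧ k < r ∧ Function.Injective e ∧ (∀ i, (e i).card = k) ∧
      (¬ ∀ n : ℕ, 0 < n → ∀ G : Finset (Finset (Fin n)), (∀ g ∈ G, g.card = k) →
        (((k.factorial * G.card : ℕ) : ℝ) / (n : ℝ) ^ k) ^ m ≤
          ((Finset.univ.filter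
              (fun f : Fin a → Fin n => ∀ i : Fin m, (e i).image f ∈ G)).card : ℝ)
            / (n : ℝ) ^ a) ∧
      (∀ n : ℕ, 0 < n → ∀ G : Finset (Finset (Fin n)), (∀ g ∈ G, g.card = r) →
        (((r.factorial * G.card : ℕ) : ℝ) / (n : ℝ) ^ r) ^ m ≤
          ((Finset.univ.filter
              (fun f : Fin a ⊕ (Fin m × Fin (r - k)) → Fin n =>
                ∀ i : Fin m,
                  ((e i).image (Sum.inl : Fin a → Fin a ⊕ (Fin m × Fin (r - k))) ∪
                    (Finset.univ : Finset (Fin (r - k))).image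
                      (fun j : Fin (r - k) =>
                        (Sum.inr (i, j) : Fin a ⊕ (Fin m × Fin (r - k))))).image f ∈ G)).card : ℝ)
            / (n : ℝ) ^ (a + m * (r - k))) := by
  refine ⟨2, 3, 8, 9, fun i => {eu i, ev i}, le_rfl, by norm_num, by decide, by decide, ?_, ?_⟩
  · intro h
    have h2 := h 2 (by norm_num) {{0, 1}} (by decide)
    have h3 : (Finset.univ.filter (fun f : Fin 8 → Fin 2 => ∀ i : Fin 9,
        ({eu i, ev i} : Finset (Fin 8)).image f ∈ ({{0, 1}} : Finset (Finset (Fin 2))))).card = 0 := by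
      decide +kernel
    rw [h3] at h2
    norm_num at h2
  · intro n hn G hG
    have hc := count_eq G
    have hN := N_ge G hG
    have hm := (ind G).main_ineq (by simpa using hn)
    have hn' : (0 : ℝ) < n := by exact_mod_cast hn
    rw [Fintype.card_fin] at hm
    have e3 : (Nat.factorial 3) = 6 := rfl
    rw [e3]
    refine le_trans ?_ (le_of_eq (congrArg (fun t => t / (n : ℝ) ^ (8 + 9 * (3 - 2))) hc.symm))
    have h1 : (((6 * G.card : ℕ) : ℝ)) ^ 9 ≤ (ind G).N ^ 9 :=
      pow_le_pow_left₀ (by positivity) hN 9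
    rw [div_pow, div_le_div_iff₀ (by positivity) (by positivity)]
    have h2 : ((n : ℝ) ^ 3) ^ 9 = (n : ℝ) ^ 10 * (n : ℝ) ^ 17 := by ring
    have h3 : (n : ℝ) ^ (8 + 9 * (3 - 2)) = (n : ℝ) ^ 17 := rfl
    rw [h2, h3, ← mul_assoc]
    exact mul_le_mul_of_nonneg_right (h1.trans hm) (by positivity)

end Pool.Agent.S11547
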