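import Pool.Statements.S12244
import Pool.Agent.P.MP_ebe746_co.Final
import Pool.Agent.P.MP_ebe746_co.Host
import Pool.Agent.P.MP_ebe746_co.FactsA
import Pool.Agent.P.MP_ebe746_co.FactsB

set_option autoImplicit false
open Pool Pool.MP_ebe746_co

namespace Pool.Agent.S12244

open Pool.Agent.P.MP_ebe746_co in
/-- Counterexample with h = 3, s = 2, p = 4, p' = 5. -/
theorem result :
    ¬ (∀ (h s : ℕ∞), 2 ≤ h → 2 ≤ s → ∀ (p p' : ℕ), 2 ≤ p → p ≤ p' →
    ∀ (n : ℕ) (G : SimpleGraph (Fin n)),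
      (∃ (m : ℕ) (T : SimpleGraph (Fin m)) (S : Fin n → Set (Fin m)),
        T.IsTree ∧
        (∀ w, ((T.neighborSet w).ncard : ℕ∞) ≤ h) ∧
        (∀ v, (S v).Nonempty ∧ (T.induce (S v)).Connected) ∧
        (∀ v, ∀ w ∈ S v, ((T.neighborSet w ∩ S v).ncard : ℕ∞) ≤ s) ∧
        (∀ u v, u ≠ v → (G.Adj u v ↔ p ≤ (S u ∩ S v).ncard))) →
      (∃ (m : ℕ) (T : SimpleGraph (Fin m)) (S : Fin n → Set (Fin m)),
        T.IsTree ∧
        (∀ w, ((T.neighborSet w).ncard : ℕ∞) ≤ h) ∧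
        (∀ v, (S v).Nonempty ∧ (T.induce (S v)).Connected) ∧
        (∀ v, ∀ w ∈ S v, ((T.neighborSet w ∩ S v).ncard : ℕ∞) ≤ s) ∧
        (∀ u v, u ≠ v → (G.Adj u v ↔ p' ≤ (S u ∩ S v).ncard)))) := by
  intro H
  obtain ⟨m, T, S, hT, -, hconn, hdeg, hadj⟩ := H 3 2 (by norm_num) le_rfl 4 5 (by norm_num)
    (by norm_num) 240 graph ⟨168, host, sub, host_isTree,
      fun w => by exact_mod_cast host_deg w, sub_conn,
      fun v w hw => by exact_mod_cast sub_deg v w hw,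
      fun u v huv => by rw [ncard_inter]; exact ⟨fun h => h.2, fun h => ⟨huv, h⟩⟩⟩
  have cS : ∀ v, Cvx T (S v) := fun v => cvx_of_connected hT (hconn v).2
  have lS : ∀ v, Col T (S v) := fun v =>
    col_of_deg hT (cS v) (fun w hw => by exact_mod_cast hdeg v w hw)
  have hA : ∀ {u v}, Ad u v → Win T (S u) (S v) := fun {u v} h =>
    (win_iff hT (cS u) (cS v) (lS u)).mp ((hadj u v h.1).mp h)
  have hN : ∀ {u v}, Na u v → ¬ Win T (S u) (S v) := fun {u v} h hw =>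
    h.2 ((hadj u v h.1).mpr ((win_iff hT (cS u) (cS v) (lS u)).mpr hw)).2
  obtain ⟨a1, a2, a3, a4, a5, a6, a7, a8, a9, a10, a11, a12⟩ := fW
  obtain ⟨b1, b2, b3, b4, b5⟩ := fN
  exact core hT (fun X Y => S (iP X Y)) (fun X => S (iQ X)) (fun X i => S (iU X i))
    (fun X Y => by rw [iP_symm]) (fun _ _ => cS _) (fun _ _ => lS _) (fun _ => cS _)
    (fun _ => lS _) (fun _ _ => cS _) (fun X i => hA (fQU X i))
    (fun X i j h => hN (fUU X i j h)) (fun X Y h => hA (fPQ X Y h))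
    (fun X Y i h => hA (fPU X Y i h)) (fun X Y W h1 h2 h3 => hN (fQR X Y W h1 h2 h3))
    (fun X Y W h1 h2 h3 => hA (fPP X Y W h1 h2 h3))
    (hA a1) (hA a2) (hA a3) (hA a4) (hA a5) (hA a6) (hA a7) (hA a8) (hA a9) (hA a10) (hA a11)
    (hA a12) (hN b1) (hN b2) (hN b3) (hN b4) (hN b5)

end Pool.Agent.S12244
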