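import Pool.Statements.S12585
import Pool.Agent.P.MP_fc6a29_co.Opt
import Pool.Agent.P.MP_fc6a29_co.Lower

set_option autoImplicit false
open Pool Pool.MP_fc6a29_co

namespace Pool.Agent.S12585

/-- The maximum number of triples in an n-vertex 3-graph containing no tight 5-cycle, divided by n choose 3, tends to 2√3−3 as n grows; that is, the Turán density of the tight 3-uniform 5-cycle is 2√3−3. -/
theorem result :
    Filter.Tendsto
      (fun n : ℕ =>
        ((sSup {m : ℕ | ∃ H : Finset (Finset (Fin n)),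
            (∀ e ∈ H, e.card = 3) ∧
            (¬ ∃ f : Fin 5 → Fin n, Function.Injective f ∧
                ∀ i : Fin 5, ({f i, f (i + 1), f (i + 2)} : Finset (Fin n)) ∈ H) ∧
            H.card = m} : ℕ) : ℝ) / ((n.choose 3 : ℕ) : ℝ))
      Filter.atTop (nhds (2 * Real.sqrt 3 - 3)) := by
  set S : ℕ → Set ℕ := fun n => {m : ℕ | ∃ H : Finset (Finset (Fin n)),
    (∀ e ∈ H, e.card = 3) ∧
    (¬ ∃ f : Fin 5 → Fin n, Function.Injective f ∧
        ∀ i : Fin 5, ({f i, f (i + 1), f (i + 2)} : Finset (Fin n)) ∈ H) ∧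
    H.card = m} with hS
  show Filter.Tendsto (fun n : ℕ => ((sSup (S n) : ℕ) : ℝ) / ((n.choose 3 : ℕ) : ℝ)) _ _
  have bdd : ∀ n, BddAbove (S n) := fun n => ⟨Fintype.card (Finset (Fin n)), by
    rintro m ⟨H, -, -, rfl⟩
    exact Finset.card_le_univ H⟩
  have lo : ∀ n : ℕ, (2 * √3 - 3) * (n : ℝ) ^ 3 / 6 - (n : ℝ) ^ 2 ≤ ((sSup (S n) : ℕ) : ℝ) := by
    intro n
    obtain ⟨H, h1, h2, h3⟩ := Pool.Agent.P.MP_fc6a29_co.construction n
      (Finset.univ : Finset (Fin n)) (by simp)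
    have hm : H.card ∈ S n :=
      ⟨H, fun e he => (h1 e he).2, fun ⟨f, _, hf⟩ => h2 ⟨f, hf⟩, rfl⟩
    exact h3.trans (by exact_mod_cast le_csSup (bdd n) hm)
  have hi : ∀ n : ℕ, 0 < n → 6 * ((sSup (S n) : ℕ) : ℝ) ≤ (2 * √3 - 3) * (n : ℝ) ^ 3 := by
    intro n hn
    have ne : (S n).Nonempty := ⟨0, ∅, by simp, by simp, rfl⟩
    obtain ⟨H, h1, h2, h3⟩ := Nat.sSup_mem ne (bdd n)
    rw [← h3]
    exact Pool.Agent.P.MP_fc6a29_co.upper_bound hn H h1 h2
  have t1 : Filter.Tendsto (fun n : ℕ => ((sSup (S n) : ℕ) : ℝ) / ((n : ℝ) ^ 3 / 6))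
      Filter.atTop (nhds (2 * √3 - 3)) := by
    have t0 : Filter.Tendsto (fun n : ℕ => (2 * √3 - 3) - 6 / (n : ℝ)) Filter.atTop
        (nhds (2 * √3 - 3)) := by
      simpa using (tendsto_const_div_atTop_nhds_zero_nat (6 : ℝ)).const_sub (2 * √3 - 3)
    refine tendsto_of_tendsto_of_tendsto_of_le_of_le' t0 tendsto_const_nhds ?_ ?_
    · filter_upwards [Filter.eventually_gt_atTop 0] with n hn
      have n0 : (0 : ℝ) < n := Nat.cast_pos.2 hn
      rw [le_div_iff₀ (by positivity)]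
      have : (2 * √3 - 3 - 6 / (n : ℝ)) * ((n : ℝ) ^ 3 / 6) =
          (2 * √3 - 3) * (n : ℝ) ^ 3 / 6 - (n : ℝ) ^ 2 := by field_simp
      rw [this]
      exact lo n
    · filter_upwards [Filter.eventually_gt_atTop 0] with n hn
      have n0 : (0 : ℝ) < n := Nat.cast_pos.2 hn
      rw [div_le_iff₀ (by positivity)]
      linarith [hi n hn]
  have t2 : Filter.Tendsto (fun n : ℕ => ((n.choose 3 : ℕ) : ℝ) / ((n : ℝ) ^ 3 / 6))
      Filter.atTop (nhds 1) := by
    have h := (Asymptotics.isEquivalent_iff_tendsto_one (by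
      filter_upwards [Filter.eventually_gt_atTop 0] with n hn
      have n0 : (0 : ℝ) < n := Nat.cast_pos.2 hn
      positivity)).1 (isEquivalent_choose 3)
    have e : ((Nat.factorial 3 : ℕ) : ℝ) = 6 := by norm_num [Nat.factorial]
    rw [e] at h
    exact h
  have t3 := t1.div t2 one_ne_zero
  rw [div_one] at t3
  refine t3.congr' ?_
  filter_upwards [Filter.eventually_gt_atTop 0] with n hn
  have n0 : (0 : ℝ) < n := Nat.cast_pos.2 hn
  exact div_div_div_cancel_right₀ (by positivity) _ _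

end Pool.Agent.S12585
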