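import Pool.Statements.S12638
import Pool.Agent.K.MP_fef8d9_co.C9

set_option autoImplicit false
open Pool Pool.MP_fef8d9_co

namespace Pool.Agent.S12638

/-- The negation of the preceding statement: For every finite graph, lower irredundance equals domination number on all induced subgraphs if and only if they are equal on every induced subgraph whose lower irredundance number is at most 5. -/
theorem result :
    ¬ (∀ (V : Type) [Fintype V] [DecidableEq V] (G : SimpleGraph V)
      (irr : Finset V → Finset V → Prop) (ir gam : Finset V → ℕ),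
      (∀ W S : Finset V, irr W S ↔
        (S ⊆ W ∧ ∀ v ∈ S, ∃ u ∈ W, (u = v ∨ G.Adj u v) ∧
          ∀ w ∈ S, w ≠ v → ¬ (u = w ∨ G.Adj u w))) →
      (∀ W : Finset V, ir W = sInf {n : ℕ | ∃ S : Finset V, irr W S ∧
          (∀ x ∈ W, x ∉ S → ¬ irr W (insert x S)) ∧ S.card = n}) →
      (∀ W : Finset V, gam W = sInf {n : ℕ | ∃ D : Finset V, D ⊆ W ∧
          (∀ x ∈ W, x ∈ D ∨ ∃ d ∈ D, G.Adj x d) ∧ D.card = n}) →
      ((∀ W : Finset V, ir W = gam W) ↔
        (∀ W : Finset V, ir W ≤ 5 → ir W = gam W))) := by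
  intro h
  have h1 := h (Fin 17) Pool.Agent.P.MP_fef8d9_co.Gr Pool.Agent.P.MP_fef8d9_co.irr
    (fun W => sInf (Pool.Agent.P.MP_fef8d9_co.irSet W))
    (fun W => sInf (Pool.Agent.P.MP_fef8d9_co.gamSet W))
    (fun _ _ => Iff.rfl) (fun _ => rfl) (fun _ => rfl)
  have h2 := h1.2 Pool.Agent.P.MP_fef8d9_co.small Finset.univ
  have h3 := Pool.Agent.P.MP_fef8d9_co.gam_univ
  have h4 := Pool.Agent.P.MP_fef8d9_co.ir_univ
  omega

end Pool.Agent.S12638
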