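import Pool.Statements.S14115
import Pool.Agent.P.MP_e09f5c_gt.Lower
import Pool.Agent.P.MP_e09f5c_gt.Approx
import Pool.Agent.P.MP_e09f5c_gt.Core

set_option autoImplicit false
open Pool Pool.MP_e09f5c_gt

namespace Pool.Agent.S14115

/-- For m>1, with vol the Sasaki volume of a unit field on S^(2m+1), the parallel transport field P has volume equal to the infimum of volumes of smooth unit tangent fields: no smooth field beats it, and smooth fields come arbitrarily close. -/
theorem result :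
    ∀ m : ℕ, 1 < m →
    ∀ vol : (EuclideanSpace ℝ (Fin (2 * m + 2)) → EuclideanSpace ℝ (Fin (2 * m + 2))) → ℝ,
    (∀ W : EuclideanSpace ℝ (Fin (2 * m + 2)) → EuclideanSpace ℝ (Fin (2 * m + 2)),
      vol W = ∫ x in Metric.sphere (0 : EuclideanSpace ℝ (Fin (2 * m + 2))) 1,
        Real.sqrt (LinearMap.det
          (((1 : EuclideanSpace ℝ (Fin (2 * m + 2)) →L[ℝ] EuclideanSpace ℝ (Fin (2 * m + 2)))
            + ContinuousLinearMap.adjoint
                ((ContinuousLinearMap.id ℝ (EuclideanSpace ℝ (Fin (2 * m + 2)))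
                    - (innerSL ℝ x).smulRight x) * fderiv ℝ W x
                  * (ContinuousLinearMap.id ℝ (EuclideanSpace ℝ (Fin (2 * m + 2)))
                    - (innerSL ℝ x).smulRight x))
              * ((ContinuousLinearMap.id ℝ (EuclideanSpace ℝ (Fin (2 * m + 2)))
                    - (innerSL ℝ x).smulRight x) * fderiv ℝ W x
                  * (ContinuousLinearMap.id ℝ (EuclideanSpace ℝ (Fin (2 * m + 2)))
                    - (innerSL ℝ x).smulRight x))).toLinearMap))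
        ∂(MeasureTheory.Measure.hausdorffMeasure ((2 * m + 1 : ℕ) : ℝ))) →
    ∀ a v : EuclideanSpace ℝ (Fin (2 * m + 2)), ‖a‖ = 1 → ‖v‖ = 1 → inner ℝ a v = 0 →
      (∀ V : EuclideanSpace ℝ (Fin (2 * m + 2)) → EuclideanSpace ℝ (Fin (2 * m + 2)),
          ContDiff ℝ (⊤ : ℕ∞) V →
          (∀ x ∈ Metric.sphere (0 : EuclideanSpace ℝ (Fin (2 * m + 2))) 1,
              inner ℝ x (V x) = 0 ∧ ‖V x‖ = 1) →
          vol (fun y => v - (inner ℝ v y / (1 + inner ℝ y a)) • (y + a)) ≤ vol V) ∧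
      (∀ ε : ℝ, 0 < ε →
        ∃ V : EuclideanSpace ℝ (Fin (2 * m + 2)) → EuclideanSpace ℝ (Fin (2 * m + 2)),
          ContDiff ℝ (⊤ : ℕ∞) V ∧
          (∀ x ∈ Metric.sphere (0 : EuclideanSpace ℝ (Fin (2 * m + 2))) 1,
              inner ℝ x (V x) = 0 ∧ ‖V x‖ = 1) ∧
          vol V < vol (fun y => v - (inner ℝ v y / (1 + inner ℝ y a)) • (y + a)) + ε) := by
  intro m hm vol hvol a v ha hv hav
  refine ⟨fun V hV hT => ?_, fun ε hε => ?_⟩
  · rw [hvol, hvol]
    exact Pool.Agent.Ped.lower (by omega) (Pool.Agent.Ped.coreIneq m hm) hV hT ha hv hav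
  · obtain ⟨V, hV, hT, h⟩ := Pool.Agent.Ped.approx m ha hv hav ε hε
    refine ⟨V, hV, hT, ?_⟩
    rw [hvol, hvol]
    exact h

end Pool.Agent.S14115
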