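import Pool.Statements.S14177
import Pool.Agent.P.MP_edb112_gt.Main

set_option autoImplicit false
open Pool Pool.MP_edb112_gt

namespace Pool.Agent.S14177

/-- For every t≥2 and ε>0 there is k₀ such that for k>k₀, every measurable A on the unit sphere S^k of normalized measure >ε and every cap C of equal measure, the sup over t points of A of the minimum pairwise distance is at least that for C. -/
theorem result :
    ∀ t : ℕ, 2 ≤ t → ∀ ε : ℝ, 0 < ε → ∃ k₀ : ℕ, ∀ k : ℕ, k₀ < k →
      ∀ A : Set (Metric.sphere (0 : EuclideanSpace ℝ (Fin (k + 1))) 1), MeasurableSet A →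
      ∀ v : EuclideanSpace ℝ (Fin (k + 1)), ‖v‖ = 1 → ∀ c : ℝ,
        (MeasureTheory.volume : MeasureTheory.Measure (EuclideanSpace ℝ (Fin (k + 1)))).toSphere A
          = (MeasureTheory.volume : MeasureTheory.Measure (EuclideanSpace ℝ (Fin (k + 1)))).toSphere
              {x | c ≤ inner ℝ (x : EuclideanSpace ℝ (Fin (k + 1))) v} →
        ENNReal.ofReal ε *
            (MeasureTheory.volume : MeasureTheory.Measure (EuclideanSpace ℝ (Fin (k + 1)))).toSphere Set.univ
          < (MeasureTheory.volume : MeasureTheory.Measure (EuclideanSpace ℝ (Fin (k + 1)))).toSphere A →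
        ∀ r : ℝ,
          (∃ x : Fin t → Metric.sphere (0 : EuclideanSpace ℝ (Fin (k + 1))) 1,
              (∀ i, c ≤ inner ℝ (x i : EuclideanSpace ℝ (Fin (k + 1))) v) ∧
              ∀ i j, i ≠ j → r ≤ dist (x i) (x j)) →
          ∀ s : ℝ, s < r →
            ∃ y : Fin t → Metric.sphere (0 : EuclideanSpace ℝ (Fin (k + 1))) 1,
              (∀ i, y i ∈ A) ∧ ∀ i j, i ≠ j → s < dist (y i) (y j) := by
  intro t ht ε hε
  obtain ⟨k₀, hk⟩ := BL.main t ht ε hε
  refine ⟨k₀, fun k hk0 A hA v hv c hAc hAε r hx s hs => ?_⟩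
  have hemb : MeasurableEmbedding (Subtype.val :
      Metric.sphere (0 : EuclideanSpace ℝ (Fin (k + 1))) 1 → EuclideanSpace ℝ (Fin (k + 1))) :=
    MeasurableEmbedding.subtype_coe Metric.isClosed_sphere.measurableSet
  have hC : MeasurableSet {x : Metric.sphere (0 : EuclideanSpace ℝ (Fin (k + 1))) 1 |
      c ≤ inner ℝ (x : EuclideanSpace ℝ (Fin (k + 1))) v} :=
    (isClosed_le continuous_const (by fun_prop)).measurableSet
  have hne : (MeasureTheory.volume :
      MeasureTheory.Measure (EuclideanSpace ℝ (Fin (k + 1)))).toSphere Set.univ ≠ 0 :=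
    MeasureTheory.Measure.measure_univ_ne_zero.2 (MeasureTheory.Measure.toSphere_ne_zero _)
  rw [BL.toSphere_eq A hA, BL.toSphere_eq _ hC,
    ENNReal.mul_right_inj hne (MeasureTheory.measure_ne_top _ _)] at hAc
  rw [BL.toSphere_eq A hA, mul_comm,
    ENNReal.mul_lt_mul_iff_right hne (MeasureTheory.measure_ne_top _ _)] at hAε
  have hcap : BL.sph _ (Subtype.val '' {x : Metric.sphere (0 : EuclideanSpace ℝ (Fin (k + 1))) 1 |
      c ≤ inner ℝ (x : EuclideanSpace ℝ (Fin (k + 1))) v}) = BL.sph _ (BL.cap v c) := by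
    refine MeasureTheory.measure_congr ?_
    filter_upwards [BL.ae_norm] with x hx
    refine propext ⟨?_, fun h => ⟨⟨x, by simpa using hx⟩, ?_, rfl⟩⟩
    · rintro ⟨y, hy, rfl⟩
      exact le_of_le_of_eq hy (real_inner_comm _ _)
    · exact le_of_le_of_eq h (real_inner_comm _ _)
  obtain ⟨x, hx1, hx2⟩ := hx
  obtain ⟨y, hy1, hy2⟩ := hk (EuclideanSpace ℝ (Fin (k + 1))) (by simp; omega) (Subtype.val '' A)
    (hemb.measurableSet_image.2 hA) (by rintro _ ⟨x, -, rfl⟩; simp) v hv c
    (by rw [MeasureTheory.Measure.real, hAc, hcap]; rfl)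
    ((ENNReal.ofReal_lt_iff_lt_toReal hε.le (MeasureTheory.measure_ne_top _ _)).1 hAε) r
    ⟨fun i => x i, fun i => by simp, fun i => le_of_le_of_eq (hx1 i) (real_inner_comm _ _), hx2⟩
    s hs
  choose z hz1 hz2 using hy1
  exact ⟨z, hz1, fun i j hij => by rw [Subtype.dist_eq, hz2, hz2]; exact hy2 i j hij⟩

end Pool.Agent.S14177
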