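import Pool.Statements.S14337
import Pool.Agent.K.MP_067fd8_lc.C0

set_option autoImplicit false
open Pool Pool.MP_067fd8_lc

namespace Pool.Agent.S14337

/-- Unambiguous context-free languages are closed under inverse morphisms and intersection with regular languages, and no single unambiguous CFL generates them all as inverse morphic images intersected with regular languages. -/
theorem result :
  ∀ (LD : ∀ (α N : Type), N → Finset (ContextFreeRule α N) → List α → ℕ → (ℕ → ContextFreeRule α N) → Prop)
    (UA : ∀ α : Type, Set (Language α)) (REG : ∀ α : Type, Set (Language α)),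
    (∀ (α N : Type) (S : N) (P : Finset (ContextFreeRule α N)) (w : List α) (n : ℕ)
        (rs : ℕ → ContextFreeRule α N),
        LD α N S P w n rs ↔
          ∃ ss : ℕ → List (Symbol α N),
            ss 0 = [Symbol.nonterminal S] ∧ ss n = w.map Symbol.terminal ∧
            ∀ i < n, rs i ∈ P ∧ ∃ (u : List α) (v : List (Symbol α N)),
              ss i = u.map Symbol.terminal ++ Symbol.nonterminal (rs i).input :: v ∧
              ss (i + 1) = u.map Symbol.terminal ++ (rs i).output ++ v) →
    (∀ (α : Type) (L : Language α), L ∈ UA α ↔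
        ∃ (N : Type) (S : N) (P : Finset (ContextFreeRule α N)),
          (∀ w : List α, w ∈ L ↔ ∃ (n : ℕ) (rs : ℕ → ContextFreeRule α N), LD α N S P w n rs) ∧
          ∀ (w : List α) (n m : ℕ) (rs rs' : ℕ → ContextFreeRule α N),
            LD α N S P w n rs → LD α N S P w m rs' → n = m ∧ ∀ i < n, rs i = rs' i) →
    (∀ (α : Type) (L : Language α), L ∈ REG α ↔
        ∃ (σ : Type) (_ : Fintype σ) (M : DFA α σ), M.accepts = L) →
    (∀ (A B : Type) [Fintype A] [Fintype B] (L : Language B) (f : A → List B) (R : Language A),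
        L ∈ UA B → R ∈ REG A →
        ({w : List A | (w.map f).flatten ∈ L ∧ w ∈ R} : Set (List A)) ∈ UA A) ∧
    (∀ (B : Type) [Fintype B] (L0 : Language B), L0 ∈ UA B →
        ∃ (A : Type) (_ : Fintype A) (L : Language A), L ∈ UA A ∧
          ∀ (f : A → List B) (R : Language A), R ∈ REG A →
            ∃ w : List A, ¬ (w ∈ L ↔ ((w.map f).flatten ∈ L0 ∧ w ∈ R))) := by
  intro LD UA REG hLD hUA hREG
  have hU : ∀ (α : Type) (L : Language α), L ∈ UA α ↔ Pool.Agent.P.MP_067fd8_lc.UL L := by
    intro α L
    rw [hUA, Pool.Agent.P.MP_067fd8_lc.UL_iff]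
    simp only [hLD]
    exact Iff.rfl
  constructor
  · intro A B _ _ L f R hL hR
    obtain ⟨σ, _, M, rfl⟩ := (hREG _ _).1 hR
    exact (hU _ _).2 (Pool.Agent.P.MP_067fd8_lc.closure ((hU _ _).1 hL) f M)
  · intro B _ L0 h0
    obtain ⟨A, _, L, h1, h2⟩ := Pool.Agent.P.MP_067fd8_lc.not_principal ((hU _ _).1 h0)
    refine ⟨A, Fintype.ofFinite A, L, (hU _ _).2 h1, fun f R hR => ?_⟩
    obtain ⟨σ, _, M, rfl⟩ := (hREG _ _).1 hR
    exact h2 f σ inferInstance M

end Pool.Agent.S14337
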