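import Pool.Statements.S14447
import Pool.Agent.P.MP_1e185c_lc.Main
import Pool.Agent.P.MP_1e185c_lc.Match
import Pool.Agent.P.MP_1e185c_lc.Outer
import Pool.Agent.P.MP_1e185c_lc.Final

set_option autoImplicit false
open Pool Pool.MP_1e185c_lc

namespace Pool.Agent.S14447

/-- It is decidable, given words u, v and morphisms g, h over a finite alphabet (letters as naturals, morphisms as lists of letter images), whether g^n(u) = h^n(v) for some n ≥ 0. -/
theorem result :
    ComputablePred (fun p : (List (List ℕ) × List (List ℕ)) × (List ℕ × List ℕ) =>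
      ∃ n : ℕ,
        (fun w : List ℕ => w.flatMap (fun a => p.1.1.getD a []))^[n] p.2.1 =
        (fun w : List ℕ => w.flatMap (fun a => p.1.2.getD a []))^[n] p.2.2) :=
  Pool.Agent.P.MP_1e185c_lc.final
    (Pool.Agent.P.MP_1e185c_lc.core_of_pair
      (Pool.Agent.P.MP_1e185c_lc.pairMain Pool.Agent.P.MP_1e185c_lc.matchM))

end Pool.Agent.S14447
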