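import Pool.Statements.S15854
import Pool.Agent.P.MP_01fe58_nt.Good

set_option autoImplicit false
open Filter Topology
open Pool Pool.MP_01fe58_nt

namespace Pool.Agent.S15854

/-- The negation of the preceding statement: There is a set of naturals of density 1 along which (least prime that is 1 mod n) divided by (least positive m with n dividing phi(m)) tends to infinity. -/
theorem result :
    ¬ (∃ S : Set ℕ,
      Tendsto (fun N : ℕ => ((S ∩ Set.Iio N).ncard : ℝ) / (N : ℝ)) atTop (𝓝 1) ∧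
      Tendsto
        (fun n : ℕ =>
          ((sInf {p : ℕ | p.Prime ∧ p ≡ 1 [MOD n]} : ℕ) : ℝ) /
            ((sInf {m : ℕ | 0 < m ∧ n ∣ Nat.totient m} : ℕ) : ℝ))
        (atTop ⊓ 𝓟 S) atTop) := by
  classical
  rintro ⟨S, hS, hT⟩
  obtain ⟨δ, hδ, hmany⟩ := Pool.Agent.P.MP_01fe58_nt.many_eqv
  have h1 := hT.eventually (eventually_gt_atTop 1)
  rw [eventually_inf_principal, eventually_atTop] at h1
  obtain ⟨n₀, hn₀⟩ := h1
  have h2 : ∀ c, n₀ ≤ c → Pool.Agent.P.MP_01fe58_nt.Eqv c → c ∉ S := by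
    rintro c hc ⟨s, hp, hmin⟩ hcS
    have h3 := hn₀ c hc hcS
    have h4 : sInf {p : ℕ | p.Prime ∧ p ≡ 1 [MOD c]} ≤ s * c + 1 :=
      Nat.sInf_le ⟨hp, by simp [Nat.ModEq]⟩
    have h5 : s * c + 1 ≤ sInf {m : ℕ | 0 < m ∧ c ∣ Nat.totient m} := by
      have h6 := Nat.sInf_mem (s := {m : ℕ | 0 < m ∧ c ∣ Nat.totient m})
        ⟨s * c + 1, Nat.succ_pos _, by rw [Nat.totient_prime hp]; simp⟩
      exact hmin _ h6.1 h6.2
    have h7 : ((sInf {p : ℕ | p.Prime ∧ p ≡ 1 [MOD c]} : ℕ) : ℝ) ≤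
        ((sInf {m : ℕ | 0 < m ∧ c ∣ Nat.totient m} : ℕ) : ℝ) := by exact_mod_cast h4.trans h5
    exact absurd (div_le_one_of_le₀ h7 (Nat.cast_nonneg _)) (not_le.2 h3)
  have h3 := hS.eventually (lt_mem_nhds (show (1 : ℝ) - δ / 8 < 1 by linarith))
  rw [eventually_atTop] at h3
  obtain ⟨N₀, hN₀⟩ := h3
  obtain ⟨i₁, hi₁⟩ := exists_nat_gt (2 * n₀ / δ)
  obtain ⟨i, hi, hE⟩ := hmany (N₀ + i₁)
  have hpow : i < 2 ^ i := Nat.lt_two_pow_self
  have hN : 2 ^ (i + 2) = 4 * 2 ^ i := by ring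
  have hN' : 2 ^ (i + 1) = 2 * 2 ^ i := by ring
  have h4 := hN₀ (2 ^ (i + 2)) (by omega)
  set E := (Finset.Ioc 0 (2 ^ (i + 1))).filter Pool.Agent.P.MP_01fe58_nt.Eqv with hEdef
  have h5 : S ∩ Set.Iio (2 ^ (i + 2)) ⊆
      ((Finset.range (2 ^ (i + 2)) \ E) ∪ Finset.range n₀ : Finset ℕ) := by
    rintro n ⟨hnS, hn⟩
    rw [Finset.mem_coe, Finset.mem_union, Finset.mem_sdiff, Finset.mem_range, Finset.mem_range]
    by_cases h : n < n₀
    · exact Or.inr h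
    · exact Or.inl ⟨hn, fun hE => h2 n (not_lt.1 h) (Finset.mem_filter.1 hE).2 hnS⟩
  have h6 : E ⊆ Finset.range (2 ^ (i + 2)) := fun n hn => by
    have := (Finset.mem_Ioc.1 (Finset.mem_filter.1 hn).1).2
    exact Finset.mem_range.2 (by omega)
  have h7 : (S ∩ Set.Iio (2 ^ (i + 2))).ncard + E.card ≤ 2 ^ (i + 2) + n₀ := by
    have h8 := Set.ncard_le_ncard h5 (Finset.finite_toSet _)
    rw [Set.ncard_coe_finset] at h8
    have h9 := Finset.card_union_le (Finset.range (2 ^ (i + 2)) \ E) (Finset.range n₀)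
    have h10 := Finset.card_sdiff_add_card_eq_card h6
    rw [Finset.card_range] at h9 h10
    omega
  have h8 : ((S ∩ Set.Iio (2 ^ (i + 2))).ncard : ℝ) + E.card ≤ 4 * 2 ^ i + n₀ := by
    rw [hN] at h7 ⊢; exact_mod_cast h7
  have h9 : ((2 ^ (i + 2) : ℕ) : ℝ) = 4 * 2 ^ i := by rw [hN]; push_cast; ring
  rw [h9, lt_div_iff₀ (by positivity)] at h4
  have h10 : (i₁ : ℝ) ≤ 2 ^ i := by exact_mod_cast (by omega : i₁ ≤ 2 ^ i)
  rw [div_lt_iff₀ hδ] at hi₁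
  nlinarith

end Pool.Agent.S15854
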