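import Pool.Statements.S19467
import Pool.Agent.P.MP_8c7dae_pr.Phase2
import Pool.Agent.P.MP_8c7dae_pr.DePo
import Pool.Agent.P.MP_8c7dae_pr.Lim
import Pool.Agent.P.MP_8c7dae_pr.Bridge
set_option autoImplicit false
open MeasureTheory Filter Topology
open scoped BoundedContinuousFunction
open Pool Pool.MP_8c7dae_pr

namespace Pool.Agent.S19467

/-- In the random recursive square subdivision, let M_n be the fewest squares whose closed union is connected and contains both corners. Then positive constants a_n exist such that M_n/a_n converges in distribution to a non-Dirac limit law. -/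
theorem result :
  ∀ (sq : ℕ × ℕ × ℕ → Set (ℝ × ℝ)),
    (∀ s : ℕ × ℕ × ℕ, sq s =
      Set.Icc ((s.2.1 : ℝ) / 2 ^ s.1) (((s.2.1 : ℝ) + 1) / 2 ^ s.1) ×ˢ
        Set.Icc ((s.2.2 : ℝ) / 2 ^ s.1) (((s.2.2 : ℝ) + 1) / 2 ^ s.1)) →
  ∀ (cfg : ((n : ℕ) → Fin (3 * n + 3 + 1)) → ℕ → List (ℕ × ℕ × ℕ)),
    (∀ ω n, cfg ω n =
      Nat.rec (motive := fun _ => List (ℕ × ℕ × ℕ))
        [(1, 0, 0), (1, 1, 0), (1, 0, 1), (1, 1, 1)]
        (fun k L => L.eraseIdx (ω k).val ++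
          ([(0, 0), (1, 0), (0, 1), (1, 1)] : List (ℕ × ℕ)).map
            (fun d => ((L.getD (ω k).val (0, 0, 0)).1 + 1,
                       2 * (L.getD (ω k).val (0, 0, 0)).2.1 + d.1,
                       2 * (L.getD (ω k).val (0, 0, 0)).2.2 + d.2))) n) →
  ∀ (M : ℕ → ((n : ℕ) → Fin (3 * n + 3 + 1)) → ℕ),
    (∀ n ω, M n ω = sInf {m : ℕ | ∃ S : Finset (ℕ × ℕ × ℕ),
        (∀ s ∈ S, s ∈ cfg ω n) ∧ S.card = m ∧
        IsConnected (⋃ s ∈ S, sq s) ∧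
        (∃ s ∈ S, ((0 : ℝ), (0 : ℝ)) ∈ sq s) ∧
        (∃ s ∈ S, ((1 : ℝ), (1 : ℝ)) ∈ sq s)}) →
  ∃ a : ℕ → ℝ, (∀ n, 0 < a n) ∧
    ∃ ν : Measure ℝ, IsProbabilityMeasure ν ∧ (∀ c : ℝ, ν ≠ Measure.dirac c) ∧
      ∀ f : ℝ →ᵇ ℝ,
        Tendsto
          (fun n => ∫ ω, f ((M n ω : ℝ) / a n)
            ∂(Measure.infinitePi
                (fun n : ℕ => (PMF.uniformOfFintype (Fin (3 * n + 3 + 1))).toMeasure)))
          atTop (𝓝 (∫ x, f x ∂ν)) := by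
  intro sq hsq cfg hcfg M hM
  have e : M = Pool.Agent.P.MP_8c7dae_pr.Mc := by
    funext n ω
    rw [hM, show sq = Pool.Agent.P.MP_8c7dae_pr.sqN from funext hsq, hcfg]
    exact Pool.Agent.P.MP_8c7dae_pr.bridge _
  subst e
  exact Pool.Agent.P.MP_8c7dae_pr.limit_law Pool.Agent.P.MP_8c7dae_pr.Pι _
    Pool.Agent.P.MP_8c7dae_pr.measurable_Mc Pool.Agent.P.MP_8c7dae_pr.one_le_Mc
    (Pool.Agent.P.MP_8c7dae_pr.depo_CC Pool.Agent.P.MP_8c7dae_pr.geo_main)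
    (Pool.Agent.P.MP_8c7dae_pr.depo_ND (fun N k => Pool.Agent.P.MP_8c7dae_pr.a N k)
      (fun N k => by exact_mod_cast Pool.Agent.P.MP_8c7dae_pr.one_le_a N k)
      Pool.Agent.P.MP_8c7dae_pr.dc_low Pool.Agent.P.MP_8c7dae_pr.X_small)

end Pool.Agent.S19467
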