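import Pool.Statements.S19745
import Pool.Agent.P.MP_f475a8_pr.Final

set_option autoImplicit false
open MeasureTheory ProbabilityTheory
open Pool Pool.MP_f475a8_pr

namespace Pool.Agent.S19745

/-- For i.i.d. fair bits on the sites of Z^3, almost surely some vertex v exists such that every infinite 0-1 word is read along a self-avoiding nearest-neighbour path starting at some neighbour of v. -/
theorem result :
    ∀ (Ω : Type) [MeasurableSpace Ω] (μ : Measure Ω) [IsProbabilityMeasure μ]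
      (X : (Fin 3 → ℤ) → Ω → Bool),
      (∀ v, Measurable (X v)) → iIndepFun X μ →
      (∀ v, μ {ω | X v ω = true} = 1 / 2) →
      ∀ᵐ ω ∂μ, ∃ v : Fin 3 → ℤ, ∀ ξ : ℕ → Bool, ∃ u : Fin 3 → ℤ,
        (∑ i, |u i - v i| = 1) ∧
        ∃ γ : ℕ → Fin 3 → ℤ, Function.Injective γ ∧ γ 0 = u ∧
          (∀ n, ∑ i, |γ (n + 1) i - γ n i| = 1) ∧
          ∀ n, X (γ n) ω = ξ n := by
  intro Ω _ μ _ X h1 h2 h3
  exact Pool.Agent.P.MP_f475a8_pr.main_thm X ⟨h1, h2, h3⟩

end Pool.Agent.S19745
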